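import Pool.Agent.T9h34.S.GridScore

/-!
# The star gadget

Every block of variables consists of the pairs of one star vertex and all main vertices of one side.
A clique contains one star vertex and main vertices of one side, which spell a codeword of a sparse
code; the check vertices carry all message bits that are read by a group of bits of a symbol.
-/

set_option autoImplicit false

namespace Pool.Agent.T9h35.SG

open Finset Pool.Agent.T9h34 Pool.Agent.T9h34.S
open Pool.Agent.T9h34.G (Row sparseCode sparseCode_apply)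

variable {a r c k m u p P Q : ℕ}

/-- Groups of vertices: main groups, the group of the star vertices, check groups and further
vertices. -/
abbrev TGrp (a r u : ℕ) : Type := Fin a ⊕ (Unit ⊕ ((Fin a × Bool × Fin r) ⊕ Fin u))

/-- Vertices. -/
abbrev TVtx (a r c k u P Q : ℕ) : Type :=
  (Fin a × (Fin P × (Bool × Fin (r * c) → ZMod 2))) ⊕
    (Fin Q ⊕ (((Fin a × Bool × Fin r) × (Fin k × Fin c → ZMod 2)) ⊕ Fin u))

/-- The group of a vertex. -/
def tgrp : TVtx a r c k u P Q → TGrp a r u
  | .inl q => .inl q.1
  | .inr (.inl _) => .inr (.inl ())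
  | .inr (.inr (.inl q)) => .inr (.inr (.inl q.1))
  | .inr (.inr (.inr i)) => .inr (.inr (.inr i))

/-- The side of a vertex (if it has one). -/
def tside (σ0 : Fin P) : TVtx a r c k u P Q → Fin P
  | .inl q => q.2.1
  | .inr _ => σ0

/-- Labels of main vertices. -/
def tlab0 : TVtx a r c k u P Q → (Bool × Fin (r * c) → ZMod 2)
  | .inl q => q.2.2
  | .inr _ => 0

/-- Labels of check vertices. -/
def tlab2 : TVtx a r c k u P Q → (Fin k × Fin c → ZMod 2)
  | .inl _ => 0
  | .inr (.inl _) => 0
  | .inr (.inr (.inl q)) => q.2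
  | .inr (.inr (.inr _)) => 0

variable (S : Row a (r * c) → Fin k → Fin m)

/-- The vertex that a message, a side and a star vertex select in a group. -/
def tvert (s : Fin m → ZMod 2) (σ : Fin P) (v : Fin Q) : TGrp a r u → TVtx a r c k u P Q
  | .inl i => .inl (i, (σ, sparseCode S s i))
  | .inr (.inl _) => .inr (.inl v)
  | .inr (.inr (.inl q)) => .inr (.inr (.inl (q, fun w =>
      s (S (q.1, (q.2.1, finProdFinEquiv (q.2.2, w.2))) w.1))))
  | .inr (.inr (.inr i)) => .inr (.inr (.inr i))

theorem tgrp_tvert (s : Fin m → ZMod 2) (σ : Fin P) (v : Fin Q) (g : TGrp a r u) :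
    tgrp (tvert S s σ v g) = g := by
  rcases g with g | g | g | g <;> rfl

/-- Two vertices of different groups that are selected together. -/
def TBase (x y : TVtx a r c k u P Q) : Prop :=
  tgrp x ≠ tgrp y ∧ ∃ s σ v, tvert S s σ v (tgrp x) = x ∧ tvert S s σ v (tgrp y) = y

theorem TBase.symm {x y : TVtx a r c k u P Q} (h : TBase S x y) : TBase S y x :=
  ⟨fun e => h.1 e.symm, by obtain ⟨s, σ, v, h1, h2⟩ := h.2; exact ⟨s, σ, v, h2, h1⟩⟩

variable (E : Fin p × Fin p ≃ Fin P × Fin Q)

/-- The status of a pair of vertices that can be selected together. -/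
def tlabel : TVtx a r c k u P Q → TVtx a r c k u P Q → GGround a (r * c) p ⊕ Bool
  | .inl (i, (w, z)), .inr (.inl v) => .inl (E.symm (w, v), (i, z))
  | .inr (.inl v), .inl (i, (w, z)) => .inl (E.symm (w, v), (i, z))
  | _, _ => .inr true

theorem tlabel_symm (x y : TVtx a r c k u P Q) : tlabel E x y = tlabel E y x := by
  rcases x with ⟨i, w, z⟩ | x | x | x <;> rcases y with ⟨i', w', z'⟩ | y | y | y <;> rfl

/-- The status of a pair of vertices. -/
noncomputable def tedge (x y : TVtx a r c k u P Q) : GGround a (r * c) p ⊕ Bool := by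
  classical
  exact if TBase S x y then tlabel E x y else .inr false

theorem tedge_symm (x y : TVtx a r c k u P Q) : tedge S E x y = tedge S E y x := by
  unfold tedge
  by_cases h : TBase S x y
  · rw [if_pos h, if_pos h.symm, tlabel_symm]
  · rw [if_neg h, if_neg (fun h' => h h'.symm)]

/-- The graph of an input set. -/
def tgraph (Z : Finset (GGround a (r * c) p)) : SimpleGraph (TVtx a r c k u P Q) where
  Adj x y := Sum.elim (fun q => q ∈ Z) (fun c => c = true) (tedge S E x y)
  symm := ⟨by
    intro x y h
    rw [tedge_symm]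
    exact h⟩
  loopless := ⟨by
    intro x h
    unfold tedge at h
    rw [if_neg (fun h' => h'.1 rfl)] at h
    exact absurd h (by simp)⟩

theorem tgraph_adj (Z : Finset (GGround a (r * c) p)) (x y : TVtx a r c k u P Q) :
    (tgraph S E Z).Adj x y ↔
      Sum.elim (fun q => q ∈ Z) (fun c => c = true) (tedge S E x y) := Iff.rfl

theorem tbase_of_adj {Z : Finset (GGround a (r * c) p)} {x y : TVtx a r c k u P Q}
    (h : (tgraph S E Z).Adj x y) : TBase S x y := by
  by_contra hb
  rw [tgraph_adj] at h
  unfold tedge at h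
  rw [if_neg hb] at h
  simp at h

theorem tclique_iff (ha : 0 < a) (Z : Finset (GGround a (r * c) p)) :
    (∃ T : Finset (TVtx a r c k u P Q),
      (tgraph S E Z).IsNClique (Fintype.card (TGrp a r u)) T) ↔ Gr.HasWord S Z := by
  classical
  constructor
  · rintro ⟨T, hT⟩
    rw [SimpleGraph.isNClique_iff] at hT
    obtain ⟨hcl, hcard⟩ := hT
    have hinj : Set.InjOn tgrp (T : Set (TVtx a r c k u P Q)) := by
      intro x hx y hy hxy
      by_contra hne
      exact (tbase_of_adj S E (hcl hx hy hne)).1 hxy
    have himg : T.image tgrp = univ := by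
      rw [← Finset.card_eq_iff_eq_univ, Finset.card_image_of_injOn hinj, hcard]
    have hex : ∀ g : TGrp a r u, ∃ x ∈ T, tgrp x = g := by
      intro g
      have : g ∈ T.image tgrp := by rw [himg]; exact Finset.mem_univ g
      rw [Finset.mem_image] at this
      exact this
    choose x hxS hxg using hex
    have hadj : ∀ g g', g ≠ g' → (tgraph S E Z).Adj (x g) (x g') := by
      intro g g' hne
      apply hcl (hxS g) (hxS g')
      intro h
      apply hne
      rw [← hxg g, ← hxg g', h]
    have hcons : ∀ g g', g ≠ g' →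
        ∃ s σ v, tvert S s σ v g = x g ∧ tvert S s σ v g' = x g' := by
      intro g g' hne
      obtain ⟨s, σ, v, h1, h2⟩ := (tbase_of_adj S E (hadj g g' hne)).2
      rw [hxg] at h1 h2
      exact ⟨s, σ, v, h1, h2⟩
    -- the side and the star vertex
    set i0 : Fin a := ⟨0, ha⟩ with hi0
    obtain ⟨s0, σ00, v0, -, hv0⟩ := hcons (.inl i0) (.inr (.inl ())) (by simp)
    obtain ⟨σ, hσ⟩ : ∃ σ, σ = tside σ00 (x (.inl i0)) := ⟨_, rfl⟩
    have hside : ∀ i, tside σ00 (x (.inl i)) = σ := by
      intro i
      by_cases hi : i = i0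
      · rw [hi, hσ]
      · obtain ⟨s, σ', v', h1, h2⟩ := hcons (.inl i) (.inl i0) (by simpa using hi)
        rw [hσ, ← h1, ← h2]
        rfl
    -- the message
    set t : Fin m → ZMod 2 := fun v =>
      if h : ∃ q : (Fin a × Bool × Fin r) × (Fin k × Fin c),
          S (q.1.1, (q.1.2.1, finProdFinEquiv (q.1.2.2, q.2.2))) q.2.1 = v then
        tlab2 (x (.inr (.inr (.inl h.choose.1)))) h.choose.2 else 0 with ht
    have hself : ∀ g : Fin a × Bool × Fin r, ∃ s : Fin m → ZMod 2,
        tlab2 (x (.inr (.inr (.inl g)))) = fun w =>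
          s (S (g.1, (g.2.1, finProdFinEquiv (g.2.2, w.2))) w.1) := by
      intro g
      obtain ⟨s, σ', v', h1, _⟩ := hcons (.inr (.inr (.inl g))) (.inl i0) (by simp)
      refine ⟨s, ?_⟩
      rw [← h1]
      rfl
    have hA : ∀ (g : Fin a × Bool × Fin r) (w : Fin k × Fin c),
        tlab2 (x (.inr (.inr (.inl g)))) w =
          t (S (g.1, (g.2.1, finProdFinEquiv (g.2.2, w.2))) w.1) := by
      intro g w
      have hex : ∃ q : (Fin a × Bool × Fin r) × (Fin k × Fin c),
          S (q.1.1, (q.1.2.1, finProdFinEquiv (q.1.2.2, q.2.2))) q.2.1 =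
            S (g.1, (g.2.1, finProdFinEquiv (g.2.2, w.2))) w.1 := ⟨(g, w), rfl⟩
      have ht' : t (S (g.1, (g.2.1, finProdFinEquiv (g.2.2, w.2))) w.1) =
          tlab2 (x (.inr (.inr (.inl hex.choose.1)))) hex.choose.2 := by
        rw [ht]
        simp only
        rw [dif_pos hex]
      rw [ht']
      have hch := hex.choose_spec
      generalize hex.choose = q at hch
      by_cases he : g = q.1
      · obtain ⟨s, hs⟩ := hself g
        rw [← he, hs]
        simp only
        rw [← he] at hch
        rw [hch]
      · obtain ⟨s, σ', v', h1, h2⟩ := hcons (.inr (.inr (.inl g))) (.inr (.inr (.inl q.1)))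
          (by intro e; apply he; simpa using e)
        rw [← h1, ← h2]
        change s (S (g.1, (g.2.1, finProdFinEquiv (g.2.2, w.2))) w.1) =
          s (S (q.1.1, (q.1.2.1, finProdFinEquiv (q.1.2.2, q.2.2))) q.2.1)
        rw [hch]
    have hC : ∀ i h j, tlab0 (x (.inl i)) (h, j) = sparseCode S t i (h, j) := by
      intro i h j
      obtain ⟨s, σ', v', h1, h2⟩ := hcons (.inl i)
        (.inr (.inr (.inl (i, h, (finProdFinEquiv.symm j).1)))) (by simp)
      rw [← h1]
      change sparseCode S s i (h, j) = _
      rw [sparseCode_apply, sparseCode_apply]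
      apply Finset.sum_congr rfl
      intro l _
      have h3 := hA (i, h, (finProdFinEquiv.symm j).1) (l, (finProdFinEquiv.symm j).2)
      rw [← h2] at h3
      change s (S (i, (h, finProdFinEquiv ((finProdFinEquiv.symm j).1,
        (finProdFinEquiv.symm j).2))) l) = t (S (i, (h, finProdFinEquiv
          ((finProdFinEquiv.symm j).1, (finProdFinEquiv.symm j).2))) l) at h3
      rw [Prod.mk.eta, Equiv.apply_symm_apply] at h3
      exact h3
    refine ⟨E.symm (σ, v0), t, ?_⟩
    intro q hq
    have hq' := mem_wordSet.1 hq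
    obtain ⟨i, y⟩ := q
    simp only at hq'
    subst hq'
    have h8 := hadj (.inl i) (.inr (.inl ())) (by simp)
    have h9 := tbase_of_adj S E h8
    rw [tgraph_adj] at h8
    unfold tedge at h8
    rw [if_pos h9] at h8
    have hx1 : x (.inl i) = .inl (i, (tside σ00 (x (.inl i)), tlab0 (x (.inl i)))) := by
      have := hxg (.inl i)
      revert this
      generalize x (.inl i) = w
      intro hw
      rcases w with ⟨q, z⟩ | w | w | w
      · simp only [tgrp, Sum.inl.injEq] at hw
        subst hw
        rfl
      · simp [tgrp] at hw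
      · simp [tgrp] at hw
      · simp [tgrp] at hw
    have h10 : tlab0 (x (.inl i)) = sparseCode S t i := by
      funext q
      obtain ⟨p1, p2⟩ := q
      exact hC i p1 p2
    rw [hx1, ← hv0, hside, h10] at h8
    exact h8
  · rintro ⟨e, s, hs⟩
    obtain ⟨σ, hσ⟩ : ∃ σ, σ = (E e).1 := ⟨_, rfl⟩
    obtain ⟨v, hv⟩ : ∃ v, v = (E e).2 := ⟨_, rfl⟩
    have he : E.symm (σ, v) = e := by rw [hσ, hv, Prod.mk.eta, Equiv.symm_apply_apply]
    have hz : ∀ i, (E.symm (σ, v), (i, sparseCode S s i)) ∈ Z := by
      intro i
      rw [he]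
      exact hs (i, sparseCode S s i) (mem_wordSet.2 rfl)
    refine ⟨univ.image (tvert S s σ v), ?_⟩
    rw [SimpleGraph.isNClique_iff]
    constructor
    · intro x hx y hy hne
      rw [Finset.coe_image, Set.mem_image] at hx hy
      obtain ⟨g, _, rfl⟩ := hx
      obtain ⟨g', _, rfl⟩ := hy
      have hgg : g ≠ g' := fun e => hne (by rw [e])
      have hbase : TBase S (tvert S s σ v g) (tvert S s σ v g') := by
        refine ⟨by rw [tgrp_tvert, tgrp_tvert]; exact hgg, s, σ, v, ?_, ?_⟩
        · rw [tgrp_tvert]
        · rw [tgrp_tvert]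
      rw [tgraph_adj]
      unfold tedge
      rw [if_pos hbase]
      rcases g with i | g | g | g
      · rcases g' with i' | g' | g' | g'
        · rfl
        · exact hz i
        · rfl
        · rfl
      · rcases g' with i' | g' | g' | g'
        · exact hz i'
        · rfl
        · rfl
        · rfl
      · rfl
      · rfl
    · rw [Finset.card_image_of_injective, Finset.card_univ]
      intro g g' h
      rw [← tgrp_tvert S s σ v g, ← tgrp_tvert S s σ v g', h]

/-- The projection from the clique problem on `n` vertices. -/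
noncomputable def tproj {n : ℕ} (f : TVtx a r c k u P Q ↪ Fin n) :
    Fin n × Fin n → GGround a (r * c) p ⊕ Bool := by
  classical
  exact fun q => if h : ∃ w : TVtx a r c k u P Q × TVtx a r c k u P Q,
      f w.1 = q.1 ∧ f w.2 = q.2 then
    tedge S E h.choose.1 h.choose.2 else .inr false

theorem pull_tproj {n : ℕ} (f : TVtx a r c k u P Q ↪ Fin n) (Z : Finset (GGround a (r * c) p)) :
    pull (tproj S E f) (chi Z) = graphInput ((tgraph S E Z).map f) := by
  classical
  funext q
  unfold pull tproj graphInput
  split_ifs with h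
  · have h1 := h.choose_spec
    generalize h.choose = w at h1
    obtain ⟨x, y⟩ := w
    simp only at h1 ⊢
    have h2 : ((tgraph S E Z).map f).Adj q.1 q.2 ↔ (tgraph S E Z).Adj x y := by
      rw [SimpleGraph.map_adj]
      constructor
      · rintro ⟨x', y', h3, h4, h5⟩
        have e1 : x' = x := f.injective (h4.trans h1.1.symm)
        have e2 : y' = y := f.injective (h5.trans h1.2.symm)
        rw [← e1, ← e2]
        exact h3
      · intro h3
        exact ⟨x, y, h3, h1.1, h1.2⟩
    have key : (Sum.elim (chi Z) id (tedge S E x y) = true)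
        ↔ ((tgraph S E Z).map f).Adj q.1 q.2 := by
      rw [h2, tgraph_adj]
      cases hE : tedge S E x y with
      | inl q => simp [chi]
      | inr c => simp
    rw [Bool.eq_iff_iff]
    simp only [decide_eq_true_eq]
    exact key
  · have h2 : ¬ ((tgraph S E Z).map f).Adj q.1 q.2 := by
      rw [SimpleGraph.map_adj]
      rintro ⟨x', y', _, h4, h5⟩
      exact h ⟨(x', y'), h4, h5⟩
    simp [h2]

/-- The embedding: the graph of a set of grid variables is a projection of the set, and it has a
clique of size `q` iff the set contains a word. -/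
theorem star_embedding {n q : ℕ} (ha : 1 ≤ a) (hq : a + (1 + a * (2 * r)) ≤ q) (hqn : q ≤ n)
    (hpp : p * p = P * Q) (hp : 1 ≤ p)
    (hw : a * (P * 2 ^ (2 * (r * c))) + (Q + a * (2 * r) * 2 ^ (k * c)) ≤ n - q) :
    ∃ (σ : Fin n × Fin n → GGround a (r * c) p ⊕ Bool)
      (Φ : Finset (GGround a (r * c) p) → SimpleGraph (Fin n)),
      (∀ Z, (∃ T, (Φ Z).IsNClique q T) ↔ Gr.HasWord S Z) ∧
      ∀ Z, pull σ (chi Z) = graphInput (Φ Z) := by
  classical
  have hPQ : 0 < P * Q := by
    rw [← hpp]
    positivity
  have hQ : 0 < Q := Nat.pos_of_mul_pos_left hPQ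
  obtain ⟨E⟩ : Nonempty (Fin p × Fin p ≃ Fin P × Fin Q) := by
    rw [← Fintype.card_eq]
    simp only [Fintype.card_prod, Fintype.card_fin]
    exact hpp
  obtain ⟨u, hu⟩ : ∃ u, q = a + (1 + (a * (2 * r) + u)) :=
    ⟨q - (a + (1 + a * (2 * r))), by omega⟩
  have hcardG : Fintype.card (TGrp a r u) = q := by
    simp only [TGrp, Fintype.card_sum, Fintype.card_prod, Fintype.card_fin, Fintype.card_bool,
      Fintype.card_unit]
    omega
  have hcard : Fintype.card (TVtx a r c k u P Q) ≤ Fintype.card (Fin n) := by
    simp only [TVtx, Fintype.card_sum, Fintype.card_prod, Fintype.card_fin,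
      Fintype.card_bool, Fintype.card_fun, ZMod.card]
    have h2 : a * (P * 2 ^ (2 * (r * c))) + (Q + (a * (2 * r) * 2 ^ (k * c) + u)) ≤ n := by
      omega
    exact h2
  obtain ⟨f⟩ := Function.Embedding.nonempty_of_card_le hcard
  haveI : Nonempty (TVtx a r c k u P Q) := ⟨.inr (.inl ⟨0, hQ⟩)⟩
  refine ⟨tproj S E f, fun Z => (tgraph S E Z).map f, ?_, fun Z => pull_tproj S E f Z⟩
  intro Z
  rw [← tclique_iff (u := u) S E ha Z, hcardG]
  have := SimpleGraph.cliqueFree_map_iff (G := tgraph (u := u) S E Z) (f := f) (n := q)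
  unfold SimpleGraph.CliqueFree at this
  constructor
  · intro h
    by_contra hc
    push Not at hc
    obtain ⟨T, hT⟩ := h
    exact this.2 hc T hT
  · intro h
    by_contra hc
    push Not at hc
    obtain ⟨T, hT⟩ := h
    exact this.1 hc T hT

end Pool.Agent.T9h35.SG
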