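import Pool.Agent.T9h34.V.Main
import Pool.Agent.T9h35.TA.Main
import Pool.Agent.T9h35.SG.Gadget

set_option autoImplicit false

/-!
# The data of the star gadget
-/

namespace Pool.Agent.T9h35.SG

open Finset Pool.Agent.T9h34.S Pool.Agent.T9h34.S.Gr
open Pool.Agent.T9h34 (ind ind_of ind_not ind_nonneg ind_le_one ind_mono smalls Ev Ev_mono Spread
  chi pull Ground wordSet card_wordSet graphInput)
open Pool.Agent.T9h34.G (Row sparseCode NoiseOp)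
open Pool.Agent.T9h34.W (exists_enum ind_filter_sum)
open Pool.Agent.T9h35.TX (Hyp tblock tsizes)
open scoped Classical

/-- The number of check vertices. -/
theorem check_size {L f z l w y β c a r : ℕ} (hL1 : 1 ≤ L)
    (hz : z = Nat.log 2 (L + f) + 1) (hl : l = 2 * L + 100) (hw : w = 2 * l + f + 2)
    (hy : y = Nat.log 2 w) (hβ : 1 ≤ β) (hβl : β ≤ l) (hc : c = 3 * l / β + 1)
    (ha : a ≤ 1601 * (c * r ^ 2)) (hrβ : r * β ≤ 9 * (y + β)) :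
    a * (2 * r) * 2 ^ (4 * β) ≤ 10 ^ 22 * (L * (L + f) * z ^ 5 * 2 ^ (5 * β)) := by
  have hlL : l ≤ 102 * L := by omega
  have hwL : w ≤ 206 * (L + f) := by omega
  have hyz : y ≤ z + 7 := by
    have h1 : w < 2 ^ z * 2 ^ 8 := by
      have h2 : L + f < 2 ^ z := by rw [hz]; exact Nat.lt_pow_succ_log_self (by norm_num) _
      calc w ≤ 206 * (L + f) := hwL
        _ < 206 * 2 ^ z := Nat.mul_lt_mul_of_pos_left h2 (by norm_num)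
        _ ≤ 256 * 2 ^ z := Nat.mul_le_mul_right _ (by norm_num)
        _ = 2 ^ z * 2 ^ 8 := by ring
    rw [← pow_add] at h1
    have h3 : Nat.log 2 w < z + 8 := (Nat.log_lt_iff_lt_pow (by norm_num) (by omega)).2 h1
    omega
  have hz1 : 1 ≤ z := by omega
  have hy1 : 1 ≤ y := by
    rw [hy]
    have h1 : Nat.log 2 (2 ^ 1) ≤ Nat.log 2 w := Nat.log_mono_right (by omega)
    rwa [Nat.log_pow (by norm_num)] at h1
  have hy8 : y ≤ 8 * z := by omega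
  have hc3 : c ≤ 4 * l := by
    rw [hc]
    have := Nat.div_le_self (3 * l) β
    omega
  have hr18 : r ≤ 18 * y := by
    have h1 : r * β ≤ (18 * y) * β := by
      refine hrβ.trans ?_
      have h2 : y ≤ y * β := Nat.le_mul_of_pos_right _ hβ
      have h3 : β ≤ y * β := Nat.le_mul_of_pos_left _ hy1
      have h4 : 18 * y * β = 9 * (y * β + y * β) := by ring
      rw [h4]
      omega
    exact Nat.le_of_mul_le_mul_right h1 hβ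
  have haa : a ≤ 2074896 * (l * y ^ 2) := by
    calc a ≤ 1601 * (c * r ^ 2) := ha
      _ ≤ 1601 * ((4 * l) * (18 * y) ^ 2) :=
          Nat.mul_le_mul_left _ (Nat.mul_le_mul hc3 (Nat.pow_le_pow_left hr18 2))
      _ = 2074896 * (l * y ^ 2) := by ring
  have h4 : 2 ^ (4 * β) ≤ 2 ^ (5 * β) := Nat.pow_le_pow_right (by norm_num) (by omega)
  calc a * (2 * r) * 2 ^ (4 * β) ≤ (2074896 * (l * y ^ 2)) * (2 * (18 * y)) * 2 ^ (5 * β) := by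
        gcongr
    _ = (2074896 * 36) * (l * y ^ 3 * 2 ^ (5 * β)) := by ring
    _ ≤ (2074896 * 36) * ((102 * L) * (8 * z) ^ 3 * 2 ^ (5 * β)) := by gcongr
    _ = (2074896 * 36 * 102 * 8 ^ 3) * (L * 1 * (z ^ 3 * 1) * 2 ^ (5 * β)) := by ring
    _ ≤ 10 ^ 22 * (L * (L + f) * (z ^ 3 * z ^ 2) * 2 ^ (5 * β)) := by
        have h5 : 1 ≤ L + f := by omega
        have h6 : 1 ≤ z ^ 2 := Nat.one_le_pow _ _ hz1
        gcongr
        norm_num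
    _ = _ := by ring

/-- The choice of the numbers of sides and of star vertices. -/
theorem sides {A0 D : ℕ} (hA : 1 ≤ A0) (hD : 4 * A0 ≤ D) :
    ∃ P Q p : ℕ, p * p = P * Q ∧ 1 ≤ p ∧ 4 * (A0 * P) ≤ D ∧ 4 * Q ≤ D ∧ p ≤ D ∧
      D ^ 2 ≤ 256 * A0 * p ^ 2 := by
  obtain ⟨h, hh⟩ : ∃ h, h = Nat.sqrt A0 := ⟨_, rfl⟩
  have h1 : h * h ≤ A0 := by rw [hh]; exact Nat.sqrt_le A0
  have h2 : A0 < (h + 1) * (h + 1) := by rw [hh]; exact Nat.lt_succ_sqrt A0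
  have hh1 : 1 ≤ h := by
    rw [hh]
    exact Nat.le_sqrt.2 (by omega)
  obtain ⟨x, hx⟩ : ∃ x, x = D / (4 * A0) := ⟨_, rfl⟩
  have hx1 : 1 ≤ x := by
    rw [hx]
    exact (Nat.one_le_div_iff (by omega)).2 hD
  have hx2 : x * (4 * A0) ≤ D := by rw [hx]; exact Nat.div_mul_le_self _ _
  have hx3 : D < (x + 1) * (4 * A0) := by
    rw [hx, mul_comm]
    exact Nat.lt_mul_div_succ _ (by omega)
  have hQ : 4 * (x * (h * h)) ≤ D := by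
    calc 4 * (x * (h * h)) ≤ 4 * (x * A0) := by gcongr
      _ = x * (4 * A0) := by ring
      _ ≤ D := hx2
  refine ⟨x, x * (h * h), x * h, by ring, Nat.succ_le_of_lt (Nat.mul_pos hx1 hh1),
    by calc 4 * (A0 * x) = x * (4 * A0) := by ring
        _ ≤ D := hx2, hQ, ?_, ?_⟩
  · calc x * h ≤ x * (h * h) := Nat.mul_le_mul_left _ (Nat.le_mul_of_pos_left _ hh1)
      _ ≤ 4 * (x * (h * h)) := by omega
      _ ≤ D := hQ
  · have h3 : A0 ≤ 4 * (h * h) := by nlinarith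
    have h4 : D ≤ 8 * (x * A0) := by nlinarith
    calc D ^ 2 ≤ (8 * (x * A0)) ^ 2 := Nat.pow_le_pow_left h4 2
      _ = 64 * A0 * (x ^ 2 * A0) := by ring
      _ ≤ 64 * A0 * (x ^ 2 * (4 * (h * h))) := by gcongr
      _ = 256 * A0 * (x * h) ^ 2 := by ring

/-- The data. -/
theorem star_data {n q f L0 z β : ℕ} (hqn : q ≤ n) (hL1 : 1 ≤ L0) (hn : n < 2 ^ L0)
    (hβ : 1 ≤ β) (hβL : β ≤ L0)
    (hz : z = Nat.log 2 (L0 + f) + 1) (hq : 10 ^ 12 * (L0 * (z + β) ^ 3) ≤ q * β ^ 4)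
    (hbig : 4 * 10 ^ 22 * (L0 * (L0 + f) * z ^ 5 * 2 ^ (5 * β)) ≤ n - q) :
    ∃ (a r m p l c lam : ℕ) (S : Row a (r * β) → Fin 4 → Fin m)
      (N : NoiseOp (Ground a (r * β)))
      (B κ : ℝ) (e : ℕ → Fin p × Fin p) (σ : Fin n × Fin n → GGround a (r * β) p ⊕ Bool)
      (Φ : Finset (GGround a (r * β) p) → SimpleGraph (Fin n)),
      l = 2 * L0 + 100 ∧ β ≤ lam ∧ 3 * l < c * β ∧ 0 < a ∧ 0 < p ∧
      Fintype.card (Ground a (r * β)) + 1 ≤ 2 ^ lam ∧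
      Hyp N (wordSet (sparseCode S)) (5 * (lam * c)) c f B κ ((1 / 2 : ℝ) ^ β) ∧
      (T9h34.S.powOp N (5 * (lam * c) + 1)).E (fun U => ind (∃ s, wordSet (sparseCode S) s ⊆ U)) ≤
        (1 / 2 : ℝ) ^ (2 * l) ∧
      (∀ i < p ^ 2, ∀ j < p ^ 2, e i = e j → i = j) ∧
      (∀ Z, (∃ T, (Φ Z).IsNClique q T) ↔ Gr.HasWord S Z) ∧
      (∀ Z, pull σ (chi Z) = graphInput (Φ Z)) ∧
      ((p ^ 2 : ℕ) : ℝ) * (1 / 2 : ℝ) ^ (2 * l) ≤ 1 ∧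
      (n - q) ^ 2 ≤ 256 * 10 ^ 22 * (L0 * (L0 + f) * z ^ 5 * 2 ^ (5 * β)) * p ^ 2 := by
  obtain ⟨l, hl⟩ : ∃ l, l = 2 * L0 + 100 := ⟨_, rfl⟩
  obtain ⟨w, hw⟩ : ∃ w, w = 2 * l + f + 2 := ⟨_, rfl⟩
  obtain ⟨y, hy⟩ : ∃ y, y = Nat.log 2 w := ⟨_, rfl⟩
  obtain ⟨c, hc⟩ : ∃ c, c = 3 * l / β + 1 := ⟨_, rfl⟩
  obtain ⟨J, hJ⟩ : ∃ J, J = y + 2 := ⟨_, rfl⟩
  obtain ⟨lam, hlam⟩ : ∃ lam, lam = 16 * (y + β) := ⟨_, rfl⟩
  obtain ⟨a, r, m, S, N, B, κ, ha1, hr1, ha, hrβ, h2b, hX, H, hη⟩ :=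
    tblock (l := l) (f := f) (w := w) (by omega) hβ hw hy hc hJ hlam
  have hcβ : 3 * l < c * β := by
    rw [hc]
    have := Nat.lt_mul_div_succ (3 * l) hβ
    rwa [mul_comm β] at this
  obtain ⟨hgr, -⟩ := tsizes hL1 hz hl hw hy hβ (by omega) hc hJ hlam hr1 ha hrβ h2b
  have hgr' : a * 2 + a * (2 * r) ≤ q :=
    Nat.le_of_mul_le_mul_right (hgr.trans hq) (by positivity)
  have hA := T9h35.TA.ground_size hL1 hz hl hw hy hβ (by omega) hc hJ hlam ha hrβ h2b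
  have hCk := check_size hL1 hz hl hw hy hβ (by omega) hc ha hrβ
  obtain ⟨R, hR⟩ : ∃ R, R = L0 * (L0 + f) * z ^ 5 * 2 ^ (5 * β) := ⟨_, rfl⟩
  obtain ⟨A0, hA0⟩ : ∃ A0, A0 = a * 2 ^ (2 * (r * β)) := ⟨_, rfl⟩
  obtain ⟨Ck, hCk'⟩ : ∃ Ck, Ck = a * (2 * r) * 2 ^ (4 * β) := ⟨_, rfl⟩
  rw [← hR] at hbig hA hCk ⊢
  rw [← hA0] at hA
  rw [← hCk'] at hCk
  have hA1 : 1 ≤ A0 := by
    rw [hA0]
    exact Nat.succ_le_of_lt (Nat.mul_pos (by omega) (by positivity))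
  obtain ⟨P, Q, p, hpp, hp1, hP, hQ, hpD, hD2⟩ := sides (D := n - q) hA1 (by omega)
  obtain ⟨σ, Φ, hΦ, hσ⟩ := star_embedding (P := P) (Q := Q) (p := p) (k := 4) S (n := n) (q := q)
    ha1 (by omega) hqn hpp hp1 (by
      rw [← hCk']
      have h1 : a * (P * 2 ^ (2 * (r * β))) = A0 * P := by rw [hA0]; ring
      rw [h1]
      omega)
  obtain ⟨e, he⟩ := exists_enum (M := p ^ 2) hp1 le_rfl
  have hM0 : 0 < p ^ 2 := by positivity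
  have hpL : ((p : ℕ) : ℝ) ≤ 2 ^ L0 := by
    have h1 : p ≤ n := by omega
    exact_mod_cast h1.trans hn.le
  have hMsmall : ((p ^ 2 : ℕ) : ℝ) * (((p ^ 2 : ℕ) : ℝ) * (1 / 2 : ℝ) ^ (2 * l)) ≤ 1 := by
    have h5 : (1 / 2 : ℝ) ^ (2 * l) ≤ (1 / 2) ^ (4 * L0) :=
      pow_le_pow_of_le_one (by norm_num) (by norm_num) (by omega)
    calc ((p ^ 2 : ℕ) : ℝ) * (((p ^ 2 : ℕ) : ℝ) * (1 / 2 : ℝ) ^ (2 * l))
        = (p : ℝ) ^ 4 * (1 / 2 : ℝ) ^ (2 * l) := by push_cast; ring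
      _ ≤ (2 ^ L0) ^ 4 * (1 / 2) ^ (4 * L0) := by
          apply mul_le_mul (pow_le_pow_left₀ (by positivity) hpL 4) h5 (by positivity)
            (by positivity)
      _ = 1 := by
          rw [← pow_mul, mul_comm L0 4, ← mul_pow]
          norm_num
  have hMsmall2 : ((p ^ 2 : ℕ) : ℝ) * (1 / 2 : ℝ) ^ (2 * l) ≤ 1 := by
    have h1 : (1 : ℝ) ≤ ((p ^ 2 : ℕ) : ℝ) := by exact_mod_cast hM0
    have h2 : (0 : ℝ) ≤ ((p ^ 2 : ℕ) : ℝ) * (1 / 2 : ℝ) ^ (2 * l) := by positivity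
    nlinarith
  refine ⟨a, r, m, p, l, c, lam, S, N, B, κ, e, σ, Φ, hl, by omega, hcβ, by omega, hp1, hX, H,
    hη, he, hΦ, hσ, hMsmall2, ?_⟩
  calc (n - q) ^ 2 ≤ 256 * A0 * p ^ 2 := hD2
    _ ≤ 256 * (10 ^ 22 * R) * p ^ 2 := by gcongr
    _ = 256 * 10 ^ 22 * R * p ^ 2 := by ring

end Pool.Agent.T9h35.SG
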