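import Pool.Agent.T9h35.SG.Core
import Pool.Agent.T9h35.SG.Data
import Pool.Agent.T9h35.TA.Main

set_option autoImplicit false

/-!
# Circuits with real gates that are correct on alternating slices: the parameters
-/

namespace Pool.Agent.T9h35.SG

open Finset
open Pool.Agent.T9h34 (ind ind_of ind_not ind_nonneg ind_le_one ind_mono Ev Ev_const
  Ev_mono' Ground wordSet card_wordSet chi pull graphInput)
open Pool.Agent.T9h34.S (GGround mono_step)
open Pool.Agent.T9h35.RW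
open scoped Classical

/-- The quantitative theorem. -/
theorem alt_star (n q M f L W β : ℕ) (y z : ℕ → ℕ) (hβ : 1 ≤ β) (hβL : β ≤ L)
    (hW : 10 ^ 38 * L * (L + f) * (Nat.log 2 (L + f) + 1) ^ 5 * 2 ^ (5 * β) ≤ W)
    (hMW : M * (10 ^ 38 * L * (L + f) * (Nat.log 2 (L + f) + 1) ^ 5 * 2 ^ (5 * β)) ≤ W ^ 2)
    (hWq : 10 ^ 38 * L * (Nat.log 2 (L + f) + 1 + β) ^ 3 ≤ q * β ^ 4)
    (hM0 : 0 < M)
    (hy0 : q.choose 2 + n * W ≤ y 0)
    (hz0 : z (M - 1) + n * W ≤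
      SimpleGraph.extremalNumber n (⊤ : SimpleGraph (Fin q)))
    (h3 : ∀ i < M, y i + 10 ^ 38 * L * (L + f) * (Nat.log 2 (L + f) + 1) ^ 5 * 2 ^ (5 * β) ≤ z i)
    (h4 : ∀ i, i + 1 < M →
      z i + 10 ^ 38 * L * (L + f) * (Nat.log 2 (L + f) + 1) ^ 5 * 2 ^ (5 * β) ≤ y (i + 1))
    {dd : ℕ} (C : RW.Circuit (Fin n × Fin n))
    (hd' : C.FanIn f dd) (hs' : C.size + C.numTests + 1 < 2 ^ L)
    (hpos : ∀ i < M, ∀ G : SimpleGraph (Fin n), G.edgeSet.ncard = y i →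
      (∃ c : Finset (Fin n), G.IsClique (c : Set (Fin n)) ∧ q ≤ c.card) →
        C.eval (graphInput G) = true)
    (hneg : ∀ i < M, ∀ G : SimpleGraph (Fin n), G.edgeSet.ncard = z i →
      (¬ ∃ c : Finset (Fin n), G.IsClique (c : Set (Fin n)) ∧ q ≤ c.card) →
        ¬ C.eval (graphInput G) = true) :
    ∃ A B : ℕ → SimpleGraph (Fin n),
      (∀ i < M, A i ≤ B i) ∧ (∀ i, i + 1 < M → B i ≤ A (i + 1)) ∧
      (∀ i < M, ¬ ∃ c : Finset (Fin n), (B i).IsClique (c : Set (Fin n)) ∧ q ≤ c.card) ∧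
      (∀ i < M, (A i).edgeSet.ncard < y i) ∧ (∀ i < M, (B i).edgeSet.ncard = z i) ∧
      ∀ i < M, C.reads (graphInput (A i)) ≠ C.reads (graphInput (B i)) := by
  have hL1 : 1 ≤ L := hβ.trans hβL
  have hd : C.FanIn (f + 2) dd := T9h35.TA.fanIn_le (by omega) hd'
  obtain ⟨x, hx⟩ : ∃ x, x = Nat.log 2 (L + f) + 1 := ⟨_, rfl⟩
  rw [← hx] at hW hMW hWq h3 h4
  have hx1 : 1 ≤ x := by omega
  obtain ⟨x', hx'⟩ : ∃ x', x' = Nat.log 2 (L + (f + 2)) + 1 := ⟨_, rfl⟩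
  have hxx : x' ≤ 3 * x := by
    have h1 : Nat.log 2 (L + (f + 2)) < x + 2 := by
      apply (Nat.log_lt_iff_lt_pow (by norm_num) (by omega)).2
      have h2 : L + f < 2 ^ x := by rw [hx]; exact Nat.lt_pow_succ_log_self (by norm_num) _
      calc L + (f + 2) ≤ 4 * (L + f) := by omega
        _ < 4 * 2 ^ x := by omega
        _ = 2 ^ (x + 2) := by rw [pow_add]; ring
    omega
  obtain ⟨a, r, m, S, ha, hgr0, hX, hw2, hard⟩ := T9h35.TA.block_size (f + 2) x' hL1 hβ hβL hx'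
  obtain ⟨ρ, hρ⟩ : ∃ ρ, ρ = L * (L + f) * x ^ 5 * 2 ^ (5 * β) := ⟨_, rfl⟩
  have hρ1 : 1 ≤ ρ := by
    rw [hρ]
    have h1 : 1 ≤ x ^ 5 := Nat.one_le_pow _ _ hx1
    have h2 : 1 ≤ 2 ^ (5 * β) := Nat.one_le_two_pow
    calc 1 = 1 * 1 * 1 * 1 := by norm_num
      _ ≤ L * (L + f) * x ^ 5 * 2 ^ (5 * β) :=
        Nat.mul_le_mul (Nat.mul_le_mul (Nat.mul_le_mul hL1 (by omega)) h1) h2
  have hR : 10 ^ 38 * L * (L + f) * x ^ 5 * 2 ^ (5 * β) = 10 ^ 38 * ρ := by rw [hρ]; ring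
  rw [hR] at hW hMW h3 h4
  have hgr1 : a * 2 + a * (2 * r) ≤ q := by
    have h1 : (a * 2 + a * (2 * r)) * β ^ 4 ≤ q * β ^ 4 := by
      refine hgr0.trans (le_trans ?_ hWq)
      calc 10 ^ 12 * (L * (x' + β) ^ 3) ≤ 10 ^ 12 * (L * (3 * (x + β)) ^ 3) :=
            Nat.mul_le_mul_left _ (Nat.mul_le_mul_left _ (Nat.pow_le_pow_left (by omega) 3))
        _ = (27 * 10 ^ 12) * (L * (x + β) ^ 3) := by ring
        _ ≤ 10 ^ 38 * (L * (x + β) ^ 3) := Nat.mul_le_mul_right _ (by norm_num)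
        _ = _ := by ring
    exact Nat.le_of_mul_le_mul_right h1 (by positivity)
  have hX1 : a * 2 ^ (2 * (r * β)) ≤ 10 ^ 25 * ρ := by
    refine hX.trans ?_
    calc 10 ^ 22 * (L * (L + (f + 2)) * x' ^ 5 * 2 ^ (5 * β))
        ≤ 10 ^ 22 * (L * (3 * (L + f)) * (3 * x) ^ 5 * 2 ^ (5 * β)) := by
          apply Nat.mul_le_mul_left
          apply Nat.mul_le_mul_right
          exact Nat.mul_le_mul (Nat.mul_le_mul_left _ (by omega)) (Nat.pow_le_pow_left hxx 5)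
      _ = (10 ^ 22 * 729) * (L * (L + f) * x ^ 5 * 2 ^ (5 * β)) := by ring
      _ ≤ 10 ^ 25 * (L * (L + f) * x ^ 5 * 2 ^ (5 * β)) := Nat.mul_le_mul_right _ (by norm_num)
      _ = _ := by rw [hρ]
  obtain ⟨Ck, hCk⟩ : ∃ Ck, Ck = a * (2 * r) * 2 ^ (4 * β) := ⟨_, rfl⟩
  have hCk1 : Ck ≤ 10 ^ 25 * ρ := by
    apply (Nat.pow_le_pow_iff_left (n := 2) (by norm_num)).1
    calc Ck ^ 2 ≤ (4 * (a * 2 * 2 ^ (r * β) + a * (2 * r) * 2 ^ (4 * β))) ^ 2 := by
          apply Nat.pow_le_pow_left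
          rw [hCk]
          omega
      _ ≤ 4 * 10 ^ 33 * (L ^ 2 * (L + (f + 2)) * x' ^ 7 * 2 ^ (9 * β)) := hw2
      _ ≤ 4 * 10 ^ 33 * (L ^ 2 * (3 * (L + f)) * (3 * x) ^ 7 * 2 ^ (9 * β)) := by
          apply Nat.mul_le_mul_left
          apply Nat.mul_le_mul_right
          exact Nat.mul_le_mul (Nat.mul_le_mul_left _ (by omega)) (Nat.pow_le_pow_left hxx 7)
      _ = (4 * 10 ^ 33 * 6561) * (L ^ 2 * ((L + f) * 1) * (x ^ 7 * 1) * 2 ^ (9 * β)) := by ring
      _ ≤ (10 ^ 25) ^ 2 * (L ^ 2 * ((L + f) * (L + f)) * (x ^ 7 * x ^ 3) * 2 ^ (10 * β)) := by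
          have h1 : 1 ≤ L + f := by omega
          have h2 : 1 ≤ x ^ 3 := Nat.one_le_pow _ _ hx1
          have h3 : 2 ^ (9 * β) ≤ 2 ^ (10 * β) := Nat.pow_le_pow_right (by norm_num) (by omega)
          gcongr
          norm_num
      _ = (10 ^ 25 * ρ) ^ 2 := by
          have h1 : 2 ^ (10 * β) = (2 ^ (5 * β)) ^ 2 := by rw [← pow_mul]; congr 1; ring
          rw [hρ, h1]
          ring
  obtain ⟨A0, hA0⟩ : ∃ A0, A0 = a * 2 ^ (2 * (r * β)) := ⟨_, rfl⟩
  rw [← hA0] at hX1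
  have hA1 : 1 ≤ A0 := by
    rw [hA0]
    exact Nat.succ_le_of_lt (Nat.mul_pos (by omega) (by positivity))
  have haA : a ≤ A0 := by
    rw [hA0]
    exact Nat.le_mul_of_pos_right _ (by positivity)
  obtain ⟨P, Q, p, hpp, hp1, hP, hQ, hpD, hD2⟩ := sides (D := W / 2) hA1 (by omega)
  have hM : M ≤ p ^ 2 := by
    have h1 : W ≤ 3 * (W / 2) := by omega
    have h2 : M * (10 ^ 38 * ρ) ≤ p ^ 2 * (10 ^ 38 * ρ) := by
      calc M * (10 ^ 38 * ρ) ≤ W ^ 2 := hMW
        _ ≤ (3 * (W / 2)) ^ 2 := Nat.pow_le_pow_left h1 2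
        _ = 9 * (W / 2) ^ 2 := by ring
        _ ≤ 9 * (256 * A0 * p ^ 2) := Nat.mul_le_mul_left _ hD2
        _ ≤ 9 * (256 * (10 ^ 25 * ρ) * p ^ 2) := by gcongr
        _ = (9 * 256 * 10 ^ 25) * (p ^ 2 * ρ) := by ring
        _ ≤ 10 ^ 38 * (p ^ 2 * ρ) := Nat.mul_le_mul_right _ (by norm_num)
        _ = _ := by ring
    exact Nat.le_of_mul_le_mul_right h2 (by positivity)
  obtain ⟨E⟩ : Nonempty (Fin p × Fin p ≃ Fin P × Fin Q) := by
    rw [← Fintype.card_eq]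
    simp only [Fintype.card_prod, Fintype.card_fin]
    exact hpp
  -- the number of vertices of the gadget
  obtain ⟨w, hw⟩ : ∃ w, w = a * (P * 2 ^ (2 * (r * β))) + (Q + a * (2 * r) * 2 ^ (4 * β)) :=
    ⟨_, rfl⟩
  have hwp : 2 * w ≤ W := by
    have h1 : a * (P * 2 ^ (2 * (r * β))) = A0 * P := by rw [hA0]; ring
    rw [hw, h1, ← hCk]
    omega
  have hP1 : 1 ≤ P := by
    by_contra h
    have : P = 0 := by omega
    rw [this, Nat.zero_mul] at hpp
    have : 0 < p * p := by positivity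
    omega
  have hQ1 : 1 ≤ Q := by
    by_contra h
    have : Q = 0 := by omega
    rw [this, Nat.mul_zero] at hpp
    have : 0 < p * p := by positivity
    omega
  have haw : a + (1 + a * (2 * r)) ≤ w := by
    rw [hw]
    have h1 : a ≤ a * (P * 2 ^ (2 * (r * β))) := Nat.le_mul_of_pos_right _ (by positivity)
    have h2 : a * (2 * r) ≤ a * (2 * r) * 2 ^ (4 * β) :=
      Nat.le_mul_of_pos_right _ (by positivity)
    omega
  have hgr : a + (1 + a * (2 * r)) ≤ q := by omega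
  have hq2 : 2 ≤ q := by omega
  have hex : SimpleGraph.extremalNumber n (⊤ : SimpleGraph (Fin q)) ≤ n.choose 2 := by
    rw [Pool.Agent.T9h36.extremal_eq n q hq2, Pool.Agent.T9h36.ncard_edgeSet_eq]
    refine (SimpleGraph.card_edgeFinset_le_card_choose_two).trans (le_of_eq ?_)
    rw [Fintype.card_fin]
  have hzle := mono_step (fun i hi => (Nat.le_add_right _ _).trans (h3 i hi))
    (fun i hi => (Nat.le_add_right _ _).trans (h4 i hi))
  have hyz0 := h3 0 hM0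
  have hz00 := hzle 0 hM0
  have hcc : q.choose 2 + n * W ≤ n.choose 2 := by omega
  have hn0 : 0 < n := by
    by_contra hn0
    have hn0' : n = 0 := by omega
    rw [hn0'] at hcc
    have h1 : (2 : ℕ).choose 2 ≤ q.choose 2 := Nat.choose_le_choose 2 (by omega)
    simp at hcc h1
    omega
  have hW1 : 1 ≤ W := by omega
  have hpos' : 0 < n * W := Nat.mul_pos hn0 (by omega)
  have hwn : 2 * (w * n) ≤ n * W := by
    calc 2 * (w * n) = n * (2 * w) := by ring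
      _ ≤ n * W := Nat.mul_le_mul_left _ hwp
  have hwn' : w ≤ w * n := Nat.le_mul_of_pos_right _ hn0
  have hqn : q ≤ n := by
    by_contra hqn
    have h1 : n.choose 2 ≤ q.choose 2 := Nat.choose_le_choose 2 (by omega)
    omega
  have hfit : q + w ≤ n := by
    by_contra hfit
    have h1 := Pool.Agent.T9h36.choose_two_add q (n - q)
    have h2 : q + (n - q) = n := by omega
    rw [h2] at h1
    have h3 : (n - q) * n < w * n := Nat.mul_lt_mul_of_pos_right (by omega) hn0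
    omega
  obtain ⟨u, hu⟩ : ∃ u, q = a + (1 + (a * (2 * r) + u)) :=
    ⟨q - (a + (1 + a * (2 * r))), by omega⟩
  obtain ⟨d, hdn⟩ : ∃ d, u + d + w = n := ⟨n - u - w, by omega⟩
  have hcardG : Fintype.card (TGrp a r u) = q := by
    simp only [TGrp, Fintype.card_sum, Fintype.card_prod, Fintype.card_fin, Fintype.card_bool,
      Fintype.card_unit]
    omega
  have hcardV : Fintype.card (TVtx a r β 4 u P Q) = u + w := by
    simp only [TVtx, Fintype.card_sum, Fintype.card_prod, Fintype.card_fin, Fintype.card_bool,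
      Fintype.card_fun, ZMod.card]
    rw [hw]
    ring
  have hchoose : (u + w).choose 2 ≤ q.choose 2 + w * n := by
    calc (u + w).choose 2 ≤ (q + w).choose 2 := Nat.choose_le_choose 2 (by omega)
      _ ≤ q.choose 2 + w * (q + w) := Pool.Agent.T9h36.choose_two_add q w
      _ ≤ q.choose 2 + w * n := Nat.add_le_add_left (Nat.mul_le_mul_left _ hfit) _
  exact alt_core (d := d) S E (by omega) n q w L M (f + 2) dd y z hcardG.symm hcardV hdn
    hard (by omega) C hd hs' hM0 hM hpos hneg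
    (fun _ => by omega)
    (fun i hi => by
      have h5 := hzle i hi
      omega)
    (fun i hi => by
      have h5 := h3 i hi
      rw [← hA0]
      omega)
    (fun i hi => by
      have h5 := h4 i hi
      omega)

end Pool.Agent.T9h35.SG
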