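import Pool.Agent.T9h35.SG.Data

set_option autoImplicit false

/-!
# Average-case hardness of clique for arbitrary circuits: the star gadget
-/

namespace Pool.Agent.T9h35.SG

open Finset Pool.Agent.T9h34.S Pool.Agent.T9h34.S.Gr
open Pool.Agent.T9h34 (ind ind_of ind_not ind_nonneg ind_le_one ind_mono smalls Ev Ev_mono Spread
  chi pull Ground wordSet card_wordSet graphInput)
open Pool.Agent.T9h34.G (Row sparseCode NoiseOp)
open Pool.Agent.T9h34.W (exists_enum ind_filter_sum)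
open Pool.Agent.T9h35.RW (Circuit Gate Nondecreasing)
open Pool.Agent.T9h34.V (exists_space cutOp cutOp_word le_cutOp score_le)
open Pool.Agent.VC34 (fanIn_mono pull_mono eval_of_reads_eq sum_filter_ind tests_eq numTests_eq
  answers_eq changes_le' changes numTests average_case_changes)
open scoped Classical

/-- The main case. -/
theorem star_case {n q s f L0 z β : ℕ} (hf : 2 ≤ f) (hqn : q ≤ n) (hL1 : 1 ≤ L0)
    (hn : n < 2 ^ L0) (hs : s < 2 ^ L0)
    (hβ : 1 ≤ β) (hβL : β ≤ L0)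
    (hz : z = Nat.log 2 (L0 + f) + 1) (hq : 10 ^ 12 * (L0 * (z + β) ^ 3) ≤ q * β ^ 4)
    (hbig : 4 * 10 ^ 22 * (L0 * (L0 + f) * z ^ 5 * 2 ^ (5 * β)) ≤ n - q) :
    ∃ (M : ℕ) (Ω : Type) (_ : Fintype Ω) (ν : Ω → ℝ) (G : Ω → ℕ → SimpleGraph (Fin n))
      (H : Ω → SimpleGraph (Fin n)),
      (n - q) ^ 2 ≤ 256 * 10 ^ 22 * (L0 * (L0 + f) * z ^ 5 * 2 ^ (5 * β)) * M ∧
      (∀ ω, 0 ≤ ν ω) ∧ ∑ ω, ν ω = 1 ∧ (∀ ω i, G ω i ≤ G ω (i + 1)) ∧
      (∀ ω i, ¬ ∃ T, (G ω i).IsNClique q T) ∧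
      ∀ (d : ℕ) (C : Circuit (Fin n × Fin n)), C.FanIn f d → C.size + C.numTests ≤ s →
        (M : ℝ) * ((∑ ω with (C.eval (graphInput (H ω)) = true ↔ ∃ T, (H ω).IsNClique q T), ν ω)
            - 1 / 2) ≤
          4 + 3 * ∑ ω, ν ω * ((range M).filter fun i =>
            C.reads (graphInput (G ω (i + 1))) ≠ C.reads (graphInput (G ω i))).card := by
  obtain ⟨a, r, m, p, l, c, lam, S, N, B, κ, e, σ, Φ, hl, hβlam, hcβ, ha, hp0, hX, Hy, hη, he,
    hΦ, hσ, hMsmall, hnq⟩ := star_data hqn hL1 hn hβ hβL hz hq hbig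
  have hM0 : 0 < p ^ 2 := by positivity
  obtain ⟨Ω, _, ν, u, h0, h1, h2, h3, -, -, -, h7⟩ :=
    exists_space S (T9h34.S.powOp N (5 * (lam * c) + 1)) e ha (p ^ 2) he
  obtain ⟨T, hT⟩ : ∃ T, T = cutOp S (T9h34.S.powOp N (5 * (lam * c) + 1)) := ⟨_, rfl⟩
  rw [← hT] at h7
  have hTw : T.E (fun U => ind (∃ s, wordSet (sparseCode S) s ⊆ U)) ≤ 0 := by
    rw [hT]
    exact cutOp_word S _ ha
  -- monotonicity of the embedding
  have hgi : ∀ U Z : Finset (GGround a (r * β) p), U ⊆ Z → ∀ i, graphInput (Φ U) i = true →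
      graphInput (Φ Z) i = true := by
    intro U Z hUZ
    rw [← hσ, ← hσ]
    exact pull_mono σ (Gr.chi_le hUZ)
  have hΦmono : ∀ U Z : Finset (GGround a (r * β) p), U ⊆ Z → Φ U ≤ Φ Z := by
    intro U Z hUZ v w hvw
    have h4 := hgi U Z hUZ (v, w) (by unfold graphInput; exact decide_eq_true hvw)
    unfold graphInput at h4
    exact of_decide_eq_true h4
  obtain ⟨μ, hμ⟩ : ∃ μ, μ = Gr.push (Gr.testOp S T e hM0) Φ := ⟨_, rfl⟩
  have hμ0 : ∀ y, 0 ≤ μ y := by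
    intro y
    rw [hμ]
    exact Gr.push_nonneg _ _ _
  have hμ1 : ∑ y, μ y = 1 := by
    rw [hμ]
    exact Gr.sum_push _ _
  refine ⟨p ^ 2, Ω × SimpleGraph (Fin n), inferInstance, fun q => ν q.1 * μ q.2,
    fun q i => Φ (u q.1 i), fun q => q.2, ?_, fun q => mul_nonneg (h0 _) (hμ0 _), ?_,
    fun q i => hΦmono _ _ (h2 q.1 i), fun q i h => h3 q.1 i ((hΦ _).1 h), ?_⟩
  · exact hnq
  · rw [Fintype.sum_prod_type]
    simp only [← Finset.mul_sum, hμ1, mul_one]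
    exact h1
  intro d C hC hCs
  have hδ : (0 : ℝ) ≤ 5 * (1 / 2 : ℝ) ^ (2 * l) := by positivity
  have herr : T9h35.TX.err (Ground a (r * β)) (5 * (lam * c)) c (s + 1) ((1 / 2 : ℝ) ^ β) ≤
      2 * (1 / 2 : ℝ) ^ (2 * l) :=
    T9h35.TX.terr_small hβlam hcβ (by omega) (by
      have h4 : 2 ^ L0 < 2 ^ l := Nat.pow_lt_pow_right (by norm_num) (by omega)
      omega) hX
  have hscore := score_le (S := S) (T := T) (e := e) (p ^ 2) ha he hTw
    (fun Z => C.eval (graphInput (Φ Z))) (fun Z => C.reads (graphInput (Φ Z))) hδ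
    (by
      intro U e'
      obtain ⟨E, hE1, hE2, hE3, hE4⟩ := T9h35.RW.exists_detector hf C hC (graphInput (Φ U))
      refine ⟨fun Z => E.eval (graphInput (Φ Z)), ?_, ?_, ?_⟩
      · have hm' : ∀ g ∈ (E.subst σ).gates, g.IsMono f := by
          intro g hg
          simp only [Circuit.subst, List.mem_map] at hg
          obtain ⟨g', hg', rfl⟩ := hg
          exact Gate.isMono_subst _ g' (hE1 g' hg')
        have h4 := T9h35.TX.tdom_block Hy herr (E.subst σ) hm'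
          (by rw [Circuit.size_subst]; omega) U e'
        simp only [Circuit.eval_subst, hσ] at h4
        have h5 := le_cutOp S (T9h34.S.powOp N (5 * (lam * c) + 1)) hη
          (F := fun W => ind (E.eval (graphInput (Φ (put U e' W))) = true))
          (fun _ => ind_nonneg _) (fun _ => ind_le_one _)
        rw [← hT] at h5
        linarith
      · intro Z hUZ hZ
        exact (hE3 _ (hgi U Z hUZ) hZ).2
      · intro Z hr hZ
        exact hE4 _ hr hZ)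
    (by
      intro U Z hUZ hr hU
      exact eval_of_reads_eq hf hC (hgi U Z hUZ) hr hU)
  -- the expected number of changes
  have hchg : ∑ q : Ω × SimpleGraph (Fin n), (ν q.1 * μ q.2) * (((range (p ^ 2)).filter fun i =>
        C.reads (graphInput (Φ (u q.1 (i + 1)))) ≠ C.reads (graphInput (Φ (u q.1 i)))).card : ℝ) =
      ∑ j ∈ Finset.range (p ^ 2), stage T e j (fun U => T.E (fun W =>
        ind (C.reads (graphInput (Φ (put U (e j) W))) ≠ C.reads (graphInput (Φ U))))) := by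
    rw [Fintype.sum_prod_type]
    have h4 : ∀ ω : Ω, ∑ y : SimpleGraph (Fin n), (ν ω * μ y) * (((range (p ^ 2)).filter fun i =>
        C.reads (graphInput (Φ (u ω (i + 1)))) ≠ C.reads (graphInput (Φ (u ω i)))).card : ℝ) =
        ∑ j ∈ range (p ^ 2), ν ω *
          ind (C.reads (graphInput (Φ (u ω (j + 1)))) ≠ C.reads (graphInput (Φ (u ω j)))) := by
      intro ω
      rw [← Finset.sum_mul, ← Finset.mul_sum, hμ1, mul_one, card_filter, Nat.cast_sum,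
        Finset.mul_sum]
      apply sum_congr rfl
      intro j _
      by_cases hne : C.reads (graphInput (Φ (u ω (j + 1)))) ≠ C.reads (graphInput (Φ (u ω j)))
      · rw [if_pos hne, ind_of hne, Nat.cast_one]
      · rw [if_neg hne, ind_not hne, Nat.cast_zero]
    simp only [h4]
    rw [sum_comm]
    apply sum_congr rfl
    intro j hj
    rw [mem_range] at hj
    exact h7 j hj (fun U V => ind (C.reads (graphInput (Φ V)) ≠ C.reads (graphInput (Φ U))))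
  -- the probability of a correct answer
  have hprob : (∑ x : Ω × SimpleGraph (Fin n) with
        (C.eval (graphInput x.2) = true ↔ ∃ T, x.2.IsNClique q T), ν x.1 * μ x.2) =
      Gr.gscore S T e (p ^ 2) (fun Z => ind (C.eval (graphInput (Φ Z)) = true ↔ Gr.HasWord S Z)) /
        (2 * ((p ^ 2 : ℕ) : ℝ)) := by
    rw [sum_filter_ind, Fintype.sum_prod_type]
    have h4 : ∀ ω : Ω, ∑ y : SimpleGraph (Fin n), (ν ω * μ y) *
        ind (C.eval (graphInput y) = true ↔ ∃ T, y.IsNClique q T) =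
        ν ω * ∑ y : SimpleGraph (Fin n), μ y *
          ind (C.eval (graphInput y) = true ↔ ∃ T, y.IsNClique q T) := by
      intro ω
      rw [Finset.mul_sum]
      apply sum_congr rfl
      intro y _
      ring
    simp only [h4]
    rw [← Finset.sum_mul, h1, one_mul, hμ, Gr.sum_push_mul]
    unfold Gr.testOp
    simp only [hΦ]
  rw [hprob, hchg]
  obtain ⟨A, hA⟩ : ∃ A, A = Gr.gscore S T e (p ^ 2)
    (fun Z => ind (C.eval (graphInput (Φ Z)) = true ↔ Gr.HasWord S Z)) := ⟨_, rfl⟩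
  obtain ⟨E, hE⟩ : ∃ E, E = ∑ j ∈ Finset.range (p ^ 2), stage T e j (fun U => T.E (fun W =>
        ind (C.reads (graphInput (Φ (put U (e j) W))) ≠ C.reads (graphInput (Φ U))))) := ⟨_, rfl⟩
  obtain ⟨M, hM⟩ : ∃ M : ℝ, M = ((p ^ 2 : ℕ) : ℝ) := ⟨_, rfl⟩
  have hMpos : (0 : ℝ) < M := by rw [hM]; exact_mod_cast hM0
  rw [← hA, ← hE, ← hM] at hscore
  rw [← hA, ← hE, ← hM]
  rw [← hM] at hMsmall
  have h5 : A ≤ M + (8 + 6 * E) := by nlinarith
  have h6 : M * (A / (2 * M) - 1 / 2) = (A - M) / 2 := by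
    field_simp
  rw [h6]
  linarith

/-- **Average-case hardness of clique for arbitrary circuits.** -/
theorem average_case_star : ∃ K : ℕ, ∀ n k s f b : ℕ, 1 ≤ b → 2 ≤ k → k ≤ n →
    K * (Nat.log 2 s + Nat.log 2 n + 1) *
      (Nat.log 2 (Nat.log 2 s + Nat.log 2 n + 1 + f) + 1 + b) ^ 3 ≤ k * b ^ 4 →
    ∃ (M : ℕ) (Ω : Type) (_ : Fintype Ω) (ν : Ω → ℝ) (G : Ω → ℕ → SimpleGraph (Fin n))
      (H : Ω → SimpleGraph (Fin n)),
      (n - k) ^ 2 ≤ K * (Nat.log 2 s + Nat.log 2 n + 1) ^ 2 * (Nat.log 2 s + Nat.log 2 n + 1 + f) *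
        (Nat.log 2 (Nat.log 2 s + Nat.log 2 n + 1 + f) + 1) ^ 7 * 2 ^ (9 * b) * M ∧
      (K * (Nat.log 2 s + Nat.log 2 n + 1) * (Nat.log 2 s + Nat.log 2 n + 1 + f) *
        (Nat.log 2 (Nat.log 2 s + Nat.log 2 n + 1 + f) + 1) ^ 5 * 2 ^ (5 * b) ≤ n - k →
      (n - k) ^ 2 ≤ K * (Nat.log 2 s + Nat.log 2 n + 1) * (Nat.log 2 s + Nat.log 2 n + 1 + f) *
        (Nat.log 2 (Nat.log 2 s + Nat.log 2 n + 1 + f) + 1) ^ 5 * 2 ^ (5 * b) * M) ∧
      (∀ ω, 0 ≤ ν ω) ∧ ∑ ω, ν ω = 1 ∧ (∀ ω i, G ω i ≤ G ω (i + 1)) ∧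
      (∀ ω i, ¬ ∃ T, (G ω i).IsNClique k T) ∧
      ∀ (d : ℕ) (C : Circuit (Fin n × Fin n)), C.FanIn f d → C.size + numTests C ≤ s →
        (∀ ω, changes C M (G ω) + d ≤ d * 2 ^ C.numOther) ∧
        (M : ℝ) * ((∑ ω with (C.eval (graphInput (H ω)) = true ↔ ∃ T, (H ω).IsNClique k T), ν ω)
            - 1 / 2) ≤ 4 + 3 * ∑ ω, ν ω * changes C M (G ω) := by
  obtain ⟨K0, hK0⟩ := average_case_changes
  refine ⟨K0 + 10 ^ 38, ?_⟩
  intro n q s f β hβ hq2 hqn hq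
  obtain ⟨K, hK⟩ : ∃ K, K = K0 + 10 ^ 38 := ⟨_, rfl⟩
  have hK1 : K0 ≤ K := by omega
  have hK2 : 10 ^ 38 ≤ K := by omega
  have hold := hK0 n q s f β hβ hq2 hqn
  rw [← hK] at hq ⊢
  obtain ⟨L0, hL0⟩ : ∃ L0, L0 = Nat.log 2 s + Nat.log 2 n + 1 := ⟨_, rfl⟩
  rw [← hL0] at hq hold ⊢
  obtain ⟨z, hz⟩ : ∃ z, z = Nat.log 2 (L0 + f) + 1 := ⟨_, rfl⟩
  rw [← hz] at hq hold ⊢
  have hL1 : 1 ≤ L0 := by omega
  have hz1 : 1 ≤ z := by omega
  by_cases hcase : K * L0 * (L0 + f) * z ^ 5 * 2 ^ (5 * β) ≤ n - q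
  · have hs : s < 2 ^ L0 := lt_of_lt_of_le (Nat.lt_pow_succ_log_self (by norm_num) _)
      (Nat.pow_le_pow_right (by norm_num) (by omega))
    have hn : n < 2 ^ L0 := lt_of_lt_of_le (Nat.lt_pow_succ_log_self (by norm_num) _)
      (Nat.pow_le_pow_right (by norm_num) (by omega))
    obtain ⟨z', hz'⟩ : ∃ z', z' = Nat.log 2 (L0 + (f + 2)) + 1 := ⟨_, rfl⟩
    have hzz : z' ≤ 3 * z := by
      have h1 : Nat.log 2 (L0 + (f + 2)) < z + 2 := by
        apply (Nat.log_lt_iff_lt_pow (by norm_num) (by omega)).2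
        have h2 : L0 + f < 2 ^ z := by rw [hz]; exact Nat.lt_pow_succ_log_self (by norm_num) _
        calc L0 + (f + 2) ≤ 4 * (L0 + f) := by omega
          _ < 4 * 2 ^ z := by omega
          _ = 2 ^ (z + 2) := by rw [pow_add]; ring
      omega
    have hq' : 10 ^ 12 * (L0 * (z' + β) ^ 3) ≤ q * β ^ 4 := by
      refine le_trans ?_ hq
      calc 10 ^ 12 * (L0 * (z' + β) ^ 3) ≤ 10 ^ 12 * (L0 * (3 * (z + β)) ^ 3) :=
            Nat.mul_le_mul_left _ (Nat.mul_le_mul_left _ (Nat.pow_le_pow_left (by omega) 3))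
        _ = 27 * 10 ^ 12 * (L0 * (z + β) ^ 3) := by ring
        _ ≤ K * (L0 * (z + β) ^ 3) := Nat.mul_le_mul_right _ (le_trans (by norm_num) hK2)
        _ = _ := by ring
    have hR : 256 * 10 ^ 22 * (L0 * (L0 + (f + 2)) * z' ^ 5 * 2 ^ (5 * β)) ≤
        K * L0 * (L0 + f) * z ^ 5 * 2 ^ (5 * β) := by
      calc 256 * 10 ^ 22 * (L0 * (L0 + (f + 2)) * z' ^ 5 * 2 ^ (5 * β))
          ≤ 256 * 10 ^ 22 * (L0 * (3 * (L0 + f)) * (3 * z) ^ 5 * 2 ^ (5 * β)) := by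
            apply Nat.mul_le_mul_left
            apply Nat.mul_le_mul_right
            exact Nat.mul_le_mul (Nat.mul_le_mul_left _ (by omega)) (Nat.pow_le_pow_left hzz 5)
        _ = (256 * 10 ^ 22 * 729) * (L0 * (L0 + f) * z ^ 5 * 2 ^ (5 * β)) := by ring
        _ ≤ K * (L0 * (L0 + f) * z ^ 5 * 2 ^ (5 * β)) :=
            Nat.mul_le_mul_right _ (le_trans (by norm_num) hK2)
        _ = _ := by ring
    have hnL : n - q < 2 ^ L0 := lt_of_le_of_lt (Nat.sub_le _ _) hn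
    have hpos : 1 ≤ L0 * (L0 + (f + 2)) * z' ^ 5 := by
      have h1 : 1 ≤ z' ^ 5 := Nat.one_le_pow _ _ (by omega)
      calc 1 = 1 * 1 * 1 := by norm_num
        _ ≤ L0 * (L0 + (f + 2)) * z' ^ 5 := Nat.mul_le_mul (Nat.mul_le_mul hL1 (by omega)) h1
    have hβL : β ≤ L0 := by
      by_contra hcon
      push Not at hcon
      have h1 : 2 ^ L0 ≤ 2 ^ (5 * β) := Nat.pow_le_pow_right (by norm_num) (by omega)
      have h2 : 1 * (1 * 2 ^ (5 * β)) ≤
          256 * 10 ^ 22 * (L0 * (L0 + (f + 2)) * z' ^ 5 * 2 ^ (5 * β)) :=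
        Nat.mul_le_mul (by norm_num) (Nat.mul_le_mul_right _ hpos)
      omega
    obtain ⟨M, Ω, inst, ν, G, H, h1, h2, h3, h4, h5, h6⟩ :=
      star_case (f := f + 2) (by omega) hqn hL1 hn hs hβ hβL hz' hq' (by omega)
    have hnew : (n - q) ^ 2 ≤ K * L0 * (L0 + f) * z ^ 5 * 2 ^ (5 * β) * M :=
      h1.trans (Nat.mul_le_mul_right _ hR)
    refine ⟨M, Ω, inst, ν, G, H, ?_, fun _ => hnew, h2, h3, h4, h5,
      fun d C hC hCs => ⟨fun ω => ?_, ?_⟩⟩
    · refine hnew.trans (Nat.mul_le_mul_right _ ?_)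
      calc K * L0 * (L0 + f) * z ^ 5 * 2 ^ (5 * β)
          = K * (L0 * 1) * (L0 + f) * (z ^ 5 * 1) * 2 ^ (5 * β) := by ring
        _ ≤ K * (L0 * L0) * (L0 + f) * (z ^ 5 * z ^ 2) * 2 ^ (9 * β) := by
            have h7 : 1 ≤ z ^ 2 := Nat.one_le_pow _ _ hz1
            have h8 : 2 ^ (5 * β) ≤ 2 ^ (9 * β) := Nat.pow_le_pow_right (by norm_num) (by omega)
            gcongr
        _ = K * L0 ^ 2 * (L0 + f) * z ^ 7 * 2 ^ (9 * β) := by ring
    · exact changes_le' hC (G ω) (h4 ω) M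
    · rw [numTests_eq] at hCs
      refine (h6 d C (fanIn_mono (by omega) hC) hCs).trans (le_of_eq ?_)
      unfold changes
      simp only [answers_eq]
      simp only [ne_comm]
  · obtain ⟨M, Ω, inst, ν, G, H, h1, h2⟩ := hold (le_trans (by gcongr) hq)
    refine ⟨M, Ω, inst, ν, G, H, h1.trans (by gcongr), fun h => absurd h hcase, h2⟩

end Pool.Agent.T9h35.SG
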