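import Pool.Agent.T9h34.V.BoolForm
import Pool.Agent.T9h35.SG.Main

set_option autoImplicit false

/-!
# The lower bound for Boolean circuits, with the star gadget
-/

namespace Pool.Agent.T9h35.SG

open Finset
open Pool.Agent.T9h34 (Pair graphInput)
open Pool.Agent.T9h34.V
open scoped Classical

/-- **Boolean circuits with few further gates do not decide clique.** -/
theorem bool_form_star : ∃ K : ℕ, ∀ n k s : ℕ, 2 ≤ k → k ≤ n →
    K * (Nat.log 2 s + Nat.log 2 n + 1) *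
      (Nat.log 2 (Nat.log 2 s + Nat.log 2 n + 1) + 1) ^ 3 ≤ k →
    ∀ (d : ℕ) (C : T9h34.Circuit (Pair n)), C.FanIn d → C.size + C.numReads ≤ s →
      (∀ G : SimpleGraph (Fin n), C.eval (adj G) = true ↔ ∃ T, G.IsNClique k T) →
      (n - k) ^ 2 ≤ K * (Nat.log 2 s + Nat.log 2 n + 1) ^ 3 *
        (Nat.log 2 (Nat.log 2 s + Nat.log 2 n + 1) + 1) ^ 7 * ((1 + d) * 2 ^ C.numOther) ∧
      (K * (Nat.log 2 s + Nat.log 2 n + 1) ^ 2 *
        (Nat.log 2 (Nat.log 2 s + Nat.log 2 n + 1) + 1) ^ 5 ≤ n - k →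
      (n - k) ^ 2 ≤ K * (Nat.log 2 s + Nat.log 2 n + 1) ^ 2 *
        (Nat.log 2 (Nat.log 2 s + Nat.log 2 n + 1) + 1) ^ 5 * ((1 + d) * 2 ^ C.numOther)) := by
  obtain ⟨K, hK⟩ := average_case_star
  refine ⟨K * 10 ^ 8, ?_⟩
  intro n k s hk2 hkn hk d C hC hCs hdec
  obtain ⟨l, hl⟩ : ∃ l, l = Nat.log 2 s + Nat.log 2 n + 1 := ⟨_, rfl⟩
  rw [← hl] at hk ⊢
  obtain ⟨z, hz⟩ : ∃ z, z = Nat.log 2 l + 1 := ⟨_, rfl⟩
  rw [← hz] at hk ⊢
  obtain ⟨z', hz'⟩ : ∃ z', z' = Nat.log 2 (l + 2) + 1 := ⟨_, rfl⟩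
  have hl1 : 1 ≤ l := by omega
  have hz1 : 1 ≤ z := by omega
  have hzz : z' ≤ 3 * z := by
    have h1 : Nat.log 2 (l + 2) < z + 2 := by
      apply (Nat.log_lt_iff_lt_pow (by norm_num) (by omega)).2
      have h2 : l < 2 ^ z := by rw [hz]; exact Nat.lt_pow_succ_log_self (by norm_num) _
      calc l + 2 ≤ 4 * l := by omega
        _ < 4 * 2 ^ z := by omega
        _ = 2 ^ (z + 2) := by rw [pow_add]; ring
    omega
  obtain ⟨M, Ω, _, ν, G, H, h1, h1', h2, h3, h4, h5, h6⟩ := hK n k s 2 1 (by norm_num) hk2 hkn (by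
    rw [← hl, ← hz', one_pow, mul_one]
    calc K * l * (z' + 1) ^ 3 ≤ K * l * (4 * z) ^ 3 :=
          Nat.mul_le_mul_left _ (Nat.pow_le_pow_left (by omega) 3)
      _ = 64 * (K * l * z ^ 3) := by ring
      _ ≤ 10 ^ 8 * (K * l * z ^ 3) := Nat.mul_le_mul_right _ (by norm_num)
      _ = K * 10 ^ 8 * l * z ^ 3 := by ring
      _ ≤ k := hk)
  obtain ⟨h7, h8⟩ := h6 d (circR C) (circR_fanIn hC) (by
    rw [circR_size, circR_numTests]; exact hCs)
  have hall : (∑ ω with ((circR C).eval (graphInput (H ω)) = true ↔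
      ∃ T, (H ω).IsNClique k T), ν ω) = 1 := by
    rw [← h3]
    apply Finset.sum_congr _ (fun _ _ => rfl)
    rw [Finset.filter_true_of_mem]
    intro ω _
    rw [circR_eval]
    exact hdec (H ω)
  rw [hall] at h8
  obtain ⟨B, hB⟩ : ∃ B : ℕ, B = (1 + d) * 2 ^ C.numOther := ⟨_, rfl⟩
  have hX : ∑ ω, ν ω * (VC34.changes (circR C) M (G ω) : ℝ) ≤ d * 2 ^ C.numOther := by
    have h9 : ∀ ω ∈ (univ : Finset Ω), ν ω * (VC34.changes (circR C) M (G ω) : ℝ) ≤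
        ν ω * (d * 2 ^ C.numOther) := by
      intro ω _
      apply mul_le_mul_of_nonneg_left _ (h2 ω)
      have h10 := h7 ω
      rw [circR_numOther] at h10
      have h11 : VC34.changes (circR C) M (G ω) ≤ d * 2 ^ C.numOther := by omega
      exact_mod_cast h11
    refine (Finset.sum_le_sum h9).trans (le_of_eq ?_)
    rw [← Finset.sum_mul, h3, one_mul]
  have hM : (M : ℝ) ≤ 8 * B := by
    have hB' : (B : ℝ) = (1 + d) * 2 ^ C.numOther := by rw [hB]; push_cast; ring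
    have h9 : (1 : ℝ) ≤ 2 ^ C.numOther := one_le_pow₀ (by norm_num)
    have h10 : (0 : ℝ) ≤ d := Nat.cast_nonneg d
    nlinarith
  have hM' : M ≤ 8 * B := by exact_mod_cast hM
  rw [← hB]
  rw [← hl, ← hz'] at h1 h1'
  constructor
  · calc (n - k) ^ 2 ≤ K * l ^ 2 * (l + 2) * z' ^ 7 * 2 ^ (9 * 1) * M := h1
      _ ≤ K * l ^ 2 * (3 * l) * (3 * z) ^ 7 * 2 ^ (9 * 1) * (8 * B) := by
          apply Nat.mul_le_mul _ hM'
          apply Nat.mul_le_mul_right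
          exact Nat.mul_le_mul (Nat.mul_le_mul_left _ (by omega)) (Nat.pow_le_pow_left hzz 7)
      _ = (6561 * 2 ^ 12) * (K * l ^ 3 * z ^ 7 * B) := by ring
      _ ≤ 10 ^ 8 * (K * l ^ 3 * z ^ 7 * B) := Nat.mul_le_mul_right _ (by norm_num)
      _ = _ := by ring
  · intro hcase
    have h9 : K * l * (l + 2) * z' ^ 5 * 2 ^ (5 * 1) ≤ 23328 * (K * l ^ 2 * z ^ 5) := by
      calc K * l * (l + 2) * z' ^ 5 * 2 ^ (5 * 1) ≤ K * l * (3 * l) * (3 * z) ^ 5 * 2 ^ (5 * 1) := by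
            apply Nat.mul_le_mul_right
            exact Nat.mul_le_mul (Nat.mul_le_mul_left _ (by omega)) (Nat.pow_le_pow_left hzz 5)
        _ = 23328 * (K * l ^ 2 * z ^ 5) := by ring
    calc (n - k) ^ 2 ≤ K * l * (l + 2) * z' ^ 5 * 2 ^ (5 * 1) * M := by
          apply h1'
          refine h9.trans (le_trans ?_ hcase)
          calc 23328 * (K * l ^ 2 * z ^ 5) ≤ 10 ^ 8 * (K * l ^ 2 * z ^ 5) :=
                Nat.mul_le_mul_right _ (by norm_num)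
            _ = _ := by ring
      _ ≤ 23328 * (K * l ^ 2 * z ^ 5) * (8 * B) := Nat.mul_le_mul h9 hM'
      _ = 186624 * (K * l ^ 2 * z ^ 5 * B) := by ring
      _ ≤ 10 ^ 8 * (K * l ^ 2 * z ^ 5 * B) := Nat.mul_le_mul_right _ (by norm_num)
      _ = _ := by ring

end Pool.Agent.T9h35.SG
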