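import Pool.Agent.T9h35.SG.Pad
import Pool.Agent.T9h34.S.AltCore
import Pool.Agent.T9h35.RW.Pot

set_option autoImplicit false

/-!
# Circuits with real gates that are correct on alternating slices: the star gadget

The argument of `Pool.Agent.T9h35.TA.Core` for the gadget of `Pool.Agent.T9h35.SG`.
-/

namespace Pool.Agent.T9h35.SG

open Finset
open Pool.Agent.T9h34 (Ground wordSet card_wordSet chi pull graphInput)
open Pool.Agent.T9h34.S (GGround)
open Pool.Agent.T9h34.S.Gr (HasWord exists_between put mem_put sel pull_sel hasWord_put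
  graphInput_le)
open Pool.Agent.T9h35.RW
open scoped Classical

variable {a r β k m u d p P Q : ℕ}

variable (S : T9h34.G.Row a (r * β) → Fin k → Fin m)
variable (E : Fin p × Fin p ≃ Fin P × Fin Q)

/-- The number of live variables. -/
noncomputable def lc (Z : Finset (GGround a (r * β) p)) : ℕ := (Z.filter (Live S E)).card

theorem lc_put_le (Y : Finset (GGround a (r * β) p)) (e : Fin p × Fin p)
    (U : Finset (Ground a (r * β))) : lc S E (put Y e U) ≤ lc S E Y + U.card := by
  unfold lc put
  rw [filter_union]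
  refine (card_union_le _ _).trans (Nat.add_le_add_left ?_ _)
  exact (card_filter_le _ _).trans card_image_le

theorem lc_put_word {Y : Finset (GGround a (r * β) p)} {e : Fin p × Fin p}
    (hY : ∀ q ∈ Y, q.1 ≠ e) (s : Fin m → ZMod 2) :
    lc S E (put Y e (wordSet (T9h34.G.sparseCode S) s)) = lc S E Y + a := by
  unfold lc put
  rw [filter_union, card_union_of_disjoint]
  · congr 1
    rw [filter_true_of_mem, card_image_of_injective, card_wordSet]
    · intro g g' h
      exact (Prod.mk.injEq _ _ _ _ ▸ h).2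
    · intro q hq
      rw [mem_image] at hq
      obtain ⟨g, hg, rfl⟩ := hq
      exact live_word S E e s hg
  · rw [disjoint_left]
    intro q h1 h2
    rw [mem_filter] at h1 h2
    rw [mem_image] at h2
    obtain ⟨⟨g, _, rfl⟩, _⟩ := h2
    exact hY _ h1.1 rfl

theorem Γ_edges {n c : ℕ} (ι : TV a r β k u P Q d ≃ Fin n) (Z : Finset (GGround a (r * β) p))
    {D : SimpleGraph (TV a r β k u P Q d)} (hD : D ≤ THg a r β k u P Q d c) :
    (Γ S E ι Z D).edgeSet.ncard =
      (tgraph (u := u) (k := k) S E (∅ : Finset (GGround a (r * β) p))).edgeSet.ncard + lc S E Z +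
        D.edgeSet.ncard := by
  rw [Γ_ncard, WW_ncard S E Z hD, gr_ncard]
  rfl

/-- One phase. -/
theorem phase (ha : 0 < a) {n K l y z f dd : ℕ}
    (hK : K = Fintype.card (TGrp a r u))
    (ι : TV a r β k u P Q d ≃ Fin n)
    (hard : ∀ C : RW.Circuit (Ground a (r * β)), (∀ g ∈ C.gates, g.IsMono f) → C.size < 2 ^ l →
        (∀ s, C.eval (chi (wordSet (T9h34.G.sparseCode S) s)) = true) →
        ∃ U : Finset (Ground a (r * β)), (¬ ∃ s, wordSet (T9h34.G.sparseCode S) s ⊆ U) ∧
          C.eval (chi U) = true)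
    (hf : 2 ≤ f) (C : RW.Circuit (Fin n × Fin n)) (hCd : C.FanIn f dd)
    (hs : C.size + C.numTests + 1 < 2 ^ l)
    (hpos : ∀ G : SimpleGraph (Fin n), G.edgeSet.ncard = y →
      (∃ c : Finset (Fin n), G.IsClique (c : Set (Fin n)) ∧ K ≤ c.card) →
        C.eval (graphInput G) = true)
    (hneg : ∀ G : SimpleGraph (Fin n), G.edgeSet.ncard = z →
      (¬ ∃ c : Finset (Fin n), G.IsClique (c : Set (Fin n)) ∧ K ≤ c.card) →
        ¬ C.eval (graphInput G) = true)
    (hyz : y + a * 2 ^ (2 * (r * β)) ≤ z)
    (hfull : ∀ Z : Finset (GGround a (r * β) p),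
      z ≤ (Γ S E ι Z (THg a r β k u P Q d (K - 1))).edgeSet.ncard)
    (Y : Finset (GGround a (r * β) p)) (e : Fin p × Fin p) (hY : ∀ q ∈ Y, q.1 ≠ e)
    (hYw : ¬ HasWord S Y)
    (D : SimpleGraph (TV a r β k u P Q d)) (hD : D ≤ THg a r β k u P Q d (K - 1))
    (hyD : (Γ S E ι Y D).edgeSet.ncard + a = y) :
    ∃ (U : Finset (Ground a (r * β))) (D' : SimpleGraph (TV a r β k u P Q d)),
      D ≤ D' ∧ D' ≤ THg a r β k u P Q d (K - 1) ∧
      (Γ S E ι (put Y e U) D').edgeSet.ncard = z ∧ ¬ HasWord S (put Y e U) ∧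
      C.reads (graphInput (Γ S E ι Y D)) ≠ C.reads (graphInput (Γ S E ι (put Y e U) D')) := by
  have hcardG : Fintype.card (TGrp a r u) = a + (1 + (a * (2 * r) + u)) := by
    simp only [TGrp, Fintype.card_sum, Fintype.card_prod, Fintype.card_fin, Fintype.card_bool,
      Fintype.card_unit]
  have hX : Fintype.card (Ground a (r * β)) = a * 2 ^ (2 * (r * β)) := by
    simp [Ground, T9h34.Sym, ZMod.card]
  have hc : K - 1 + 1 = Fintype.card (TGrp a r u) := by omega
  obtain ⟨X, hE1, hE2, hE3, hE4⟩ := exists_detector hf C hCd (graphInput (Γ S E ι Y D))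
  have hev : ∀ U : Finset (Ground a (r * β)),
      ((X.subst (projW S E ι D)).subst (sel Y e)).eval (chi U) =
      X.eval (graphInput (Γ S E ι (put Y e U) D)) := by
    intro U
    rw [RW.Circuit.eval_subst, pull_sel hY, RW.Circuit.eval_subst, pull_projW S E ι hD]
  have hmono' : ∀ g ∈ ((X.subst (projW S E ι D)).subst (sel Y e)).gates, g.IsMono f := by
    intro g hg
    simp only [RW.Circuit.subst, List.mem_map] at hg
    obtain ⟨g', ⟨g'', hg'', rfl⟩, rfl⟩ := hg
    exact Gate.isMono_subst _ _ (Gate.isMono_subst _ _ (hE1 g'' hg''))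
  have hsub : ∀ U : Finset (Ground a (r * β)), Y ⊆ put Y e U := fun U => subset_union_left
  obtain ⟨U, hU, hUE⟩ := hard _ hmono' (by
      rw [RW.Circuit.size_subst, RW.Circuit.size_subst]
      omega) (by
    intro s
    rw [hev]
    by_contra hcon
    have h1 := (hE3 (graphInput (Γ S E ι (put Y e (wordSet (T9h34.G.sparseCode S) s)) D))
      (graphInput_le (Γ_mono S E ι (hsub _) le_rfl)) (by simpa using hcon)).2
    have h2 : (Γ S E ι (put Y e (wordSet (T9h34.G.sparseCode S) s)) D).edgeSet.ncard = y := by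
      rw [Γ_edges S E ι _ hD, lc_put_word S E hY]
      rw [Γ_edges S E ι _ hD] at hyD
      omega
    have h3 := hpos _ h2 (by
      rw [hK]
      refine (Γ_clique S E ha hc ι hD).2 ⟨e, s, ?_⟩
      intro g hg
      exact mem_put.2 (Or.inr ⟨rfl, hg⟩))
    rw [h1] at h3
    exact absurd h3 (by simp))
  rw [hev] at hUE
  have hUX : U.card ≤ a * 2 ^ (2 * (r * β)) := by
    rw [← hX]
    exact Finset.card_le_univ U
  have hYw' := hasWord_put S hY ha hYw hU
  have hlc := lc_put_le S E Y e U
  have h5 := Γ_edges S E ι Y hD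
  have h6 := Γ_edges S E ι (put Y e U) (le_refl (THg a r β k u P Q d (K - 1)))
  have h7 := hfull (put Y e U)
  obtain ⟨D', hDD', hD'H, hD'c⟩ := exists_between hD
    (e := z - ((tgraph (u := u) (k := k) S E (∅ : Finset (GGround a (r * β) p))).edgeSet.ncard +
      lc S E (put Y e U))) (by omega) (by omega)
  have hz : (Γ S E ι (put Y e U) D').edgeSet.ncard = z := by
    rw [Γ_edges S E ι _ hD'H, hD'c]
    omega
  refine ⟨U, D', hDD', hD'H, hz, hYw', ?_⟩
  intro hreads
  refine hneg _ hz ?_ (hE4 _ hreads.symm ?_)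
  · rw [hK, Γ_clique S E ha hc ι hD'H]
    exact hYw'
  · exact RW.Circuit.eval_mono (graphInput_le (Γ_mono S E ι (subset_refl _) hDD')) X hE1 hUE

include E in
/-- The chain of all phases. -/
theorem alt_core (ha : 0 < a) (n K w l M f dd : ℕ) (y z : ℕ → ℕ)
    (hK : K = Fintype.card (TGrp a r u))
    (hw : Fintype.card (TVtx a r β k u P Q) = u + w) (hn : u + d + w = n)
    (hard : ∀ C : RW.Circuit (Ground a (r * β)), (∀ g ∈ C.gates, g.IsMono f) → C.size < 2 ^ l →
        (∀ s, C.eval (chi (wordSet (T9h34.G.sparseCode S) s)) = true) →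
        ∃ U : Finset (Ground a (r * β)), (¬ ∃ s, wordSet (T9h34.G.sparseCode S) s ⊆ U) ∧
          C.eval (chi U) = true)
    (hf : 2 ≤ f) (C : RW.Circuit (Fin n × Fin n)) (hd : C.FanIn f dd)
    (hs : C.size + C.numTests + 1 < 2 ^ l)
    (hM0 : 0 < M) (hM : M ≤ p ^ 2)
    (hpos : ∀ i < M, ∀ G : SimpleGraph (Fin n), G.edgeSet.ncard = y i →
      (∃ c : Finset (Fin n), G.IsClique (c : Set (Fin n)) ∧ K ≤ c.card) →
        C.eval (graphInput G) = true)
    (hneg : ∀ i < M, ∀ G : SimpleGraph (Fin n), G.edgeSet.ncard = z i →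
      (¬ ∃ c : Finset (Fin n), G.IsClique (c : Set (Fin n)) ∧ K ≤ c.card) →
        ¬ C.eval (graphInput G) = true)
    (h1 : 0 < M → (u + w).choose 2 + a ≤ y 0)
    (h2 : ∀ i < M, z i + w * n ≤ SimpleGraph.extremalNumber n (⊤ : SimpleGraph (Fin K)))
    (h3 : ∀ i < M, y i + a * 2 ^ (2 * (r * β)) ≤ z i)
    (h4 : ∀ i, i + 1 < M → z i + a ≤ y (i + 1)) :
    ∃ A B : ℕ → SimpleGraph (Fin n),
      (∀ i < M, A i ≤ B i) ∧ (∀ i, i + 1 < M → B i ≤ A (i + 1)) ∧
      (∀ i < M, ¬ ∃ c : Finset (Fin n), (B i).IsClique (c : Set (Fin n)) ∧ K ≤ c.card) ∧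
      (∀ i < M, (A i).edgeSet.ncard < y i) ∧ (∀ i < M, (B i).edgeSet.ncard = z i) ∧
      ∀ i < M, C.reads (graphInput (A i)) ≠ C.reads (graphInput (B i)) := by
  have hcardG : Fintype.card (TGrp a r u) = a + (1 + (a * (2 * r) + u)) := by
    simp only [TGrp, Fintype.card_sum, Fintype.card_prod, Fintype.card_fin, Fintype.card_bool,
      Fintype.card_unit]
  have hp : 0 < p := by
    by_contra hp
    have : p = 0 := by omega
    rw [this] at hM
    simp at hM
    omega
  have hK2 : 2 ≤ K := by omega
  have hcard : Fintype.card (TV a r β k u P Q d) = Fintype.card (Fin n) := by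
    rw [Fintype.card_sum, hw, Fintype.card_fin, Fintype.card_fin]
    omega
  obtain ⟨ι⟩ := Fintype.card_eq.1 hcard
  -- an enumeration of the blocks
  have hemb : ∃ e : Fin M → Fin p × Fin p, Function.Injective e := by
    have : Fintype.card (Fin M) ≤ Fintype.card (Fin p × Fin p) := by
      rw [Fintype.card_prod, Fintype.card_fin, Fintype.card_fin]
      rw [sq] at hM
      exact hM
    obtain ⟨f⟩ := Function.Embedding.nonempty_of_card_le this
    exact ⟨f, f.injective⟩
  obtain ⟨e, he⟩ := hemb
  have hfull : ∀ i < M, ∀ Z : Finset (GGround a (r * β) p),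
      z i ≤ (Γ S E ι Z (THg a r β k u P Q d (K - 1))).edgeSet.ncard := by
    intro i hi Z
    have h5 := full_ncard S E (E (⟨0, hp⟩, ⟨0, hp⟩)).1 (E (⟨0, hp⟩, ⟨0, hp⟩)).2 (w := w) hK2 hn Z
    have h6 := h2 i hi
    rw [Γ_ncard]
    omega
  have hF : (tgraph (u := u) (k := k) S E (∅ : Finset (GGround a (r * β) p))).edgeSet.ncard ≤
      (u + w).choose 2 := by
    rw [← hw]
    exact gr_ncard_choose S E ∅
  have hc : K - 1 + 1 = Fintype.card (TGrp a r u) := by omega
  have key : ∀ j ≤ M, ∃ (Y : Finset (GGround a (r * β) p)) (D : SimpleGraph (TV a r β k u P Q d))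
      (A B : ℕ → SimpleGraph (Fin n)),
      ¬ HasWord S Y ∧ (∀ q ∈ Y, ∀ i : Fin M, j ≤ i → q.1 ≠ e i) ∧
      D ≤ THg a r β k u P Q d (K - 1) ∧
      (j < M → (Γ S E ι Y D).edgeSet.ncard + a ≤ y j) ∧
      (∀ i < j, A i ≤ B i) ∧ (∀ i, i + 1 < j → B i ≤ A (i + 1)) ∧
      (∀ i, i + 1 = j → B i ≤ Γ S E ι Y D) ∧
      (∀ i < j, ¬ ∃ c : Finset (Fin n), (B i).IsClique (c : Set (Fin n)) ∧ K ≤ c.card) ∧
      (∀ i < j, (A i).edgeSet.ncard < y i) ∧ (∀ i < j, (B i).edgeSet.ncard = z i) ∧
      ∀ i < j, C.reads (graphInput (A i)) ≠ C.reads (graphInput (B i)) := by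
    intro j
    induction j with
    | zero =>
      intro _
      refine ⟨∅, ⊥, fun _ => ⊥, fun _ => ⊥, ?_, by simp, bot_le, ?_, by simp, by simp, by simp,
        by simp, by simp, by simp, by simp⟩
      · rintro ⟨e', s, h⟩
        have h5 : (wordSet (T9h34.G.sparseCode S) s).card = a := card_wordSet _ s
        obtain ⟨g, hg⟩ := Finset.card_pos.1 (by rw [h5]; exact ha)
        exact absurd (h g hg) (by simp)
      · intro h0
        have h5 := h1 h0
        rw [Γ_edges S E ι ∅ (bot_le : _ ≤ THg a r β k u P Q d (K - 1))]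
        have h6 : lc S E (∅ : Finset (GGround a (r * β) p)) = 0 := by simp [lc]
        rw [h6]
        simp only [SimpleGraph.edgeSet_bot, Set.ncard_empty]
        omega
    | succ j ih =>
      intro hj
      obtain ⟨Y, D, A, B, hYw, hY, hD, hyD, g1, g2, g3, g4, g5, g6, g7⟩ := ih (by omega)
      have hjM : j < M := hj
      have hyD' := hyD hjM
      have h5 := Γ_edges S E ι Y hD
      have h6 := Γ_edges S E ι Y (le_refl (THg a r β k u P Q d (K - 1)))
      have h7 := hfull j hjM Y
      have h8 := h3 j hjM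
      obtain ⟨D1, hDD1, hD1H, hD1c⟩ := exists_between hD
        (e := y j - a - ((tgraph (u := u) (k := k) S E
          (∅ : Finset (GGround a (r * β) p))).edgeSet.ncard + lc S E Y)) (by omega) (by omega)
      have hy : (Γ S E ι Y D1).edgeSet.ncard + a = y j := by
        rw [Γ_edges S E ι _ hD1H, hD1c]
        omega
      obtain ⟨U, D', hD1D', hD'H, hz, hYw', hne⟩ := phase S E ha hK ι hard hf C hd hs (hpos j hjM)
        (hneg j hjM) h8 (hfull j hjM) Y (e ⟨j, hjM⟩) (fun q hq => hY q hq ⟨j, hjM⟩ le_rfl) hYw D1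
        hD1H hy
      have hle : Γ S E ι Y D1 ≤ Γ S E ι (put Y (e ⟨j, hjM⟩) U) D' :=
        Γ_mono S E ι subset_union_left hD1D'
      have hle0 : Γ S E ι Y D ≤ Γ S E ι Y D1 := Γ_mono S E ι (subset_refl Y) hDD1
      refine ⟨put Y (e ⟨j, hjM⟩) U, D', Function.update A j (Γ S E ι Y D1),
        Function.update B j (Γ S E ι (put Y (e ⟨j, hjM⟩) U) D'), hYw', ?_, hD'H, ?_, ?_, ?_, ?_,
        ?_, ?_, ?_, ?_⟩
      · intro q hq i hi
        rcases mem_put.1 hq with h' | h'
        · exact hY q h' i (by omega)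
        · rw [h'.1]
          intro h9
          have := he h9
          rw [← this] at hi
          simp at hi
      · intro hj'
        rw [hz]
        exact h4 j hj'
      · intro i hi
        by_cases hij : i = j
        · subst hij
          rw [Function.update_self, Function.update_self]
          exact hle
        · rw [Function.update_of_ne hij, Function.update_of_ne hij]
          exact g1 i (by omega)
      · intro i hi
        have hij : i ≠ j := by omega
        rw [Function.update_of_ne hij]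
        by_cases hij' : i + 1 = j
        · rw [hij', Function.update_self]
          exact (g3 i hij').trans hle0
        · rw [Function.update_of_ne hij']
          exact g2 i (by omega)
      · intro i hi
        have hij : i = j := by omega
        rw [hij, Function.update_self]
      · intro i hi
        by_cases hij : i = j
        · rw [hij, Function.update_self, hK, Γ_clique S E ha hc ι hD'H]
          exact hYw'
        · rw [Function.update_of_ne hij]
          exact g4 i (by omega)
      · intro i hi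
        by_cases hij : i = j
        · rw [hij, Function.update_self]
          omega
        · rw [Function.update_of_ne hij]
          exact g5 i (by omega)
      · intro i hi
        by_cases hij : i = j
        · rw [hij, Function.update_self]
          exact hz
        · rw [Function.update_of_ne hij]
          exact g6 i (by omega)
      · intro i hi
        by_cases hij : i = j
        · rw [hij, Function.update_self, Function.update_self]
          exact hne
        · rw [Function.update_of_ne hij, Function.update_of_ne hij]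
          exact g7 i (by omega)
  obtain ⟨-, -, A, B, -, -, -, -, g1, g2, -, g4, g5, g6, g7⟩ := key M le_rfl
  exact ⟨A, B, g1, g2, g4, g5, g6, g7⟩

end Pool.Agent.T9h35.SG
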