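import Pool.Agent.T9h34.S.PadGrid
import Pool.Agent.T9h35.SG.Gadget

set_option autoImplicit false

/-!
# Padding the star gadget to graphs with a prescribed number of edges

The same as `Pool.Agent.T9h34.S.PadGrid` (by helper34 and helper36) for the gadget of
`Pool.Agent.T9h35.SG`.
-/

namespace Pool.Agent.T9h35.SG

open Finset Pool.Agent.T9h34 Pool.Agent.T9h34.S
open Pool.Agent.T9h34.S.Gr (HasWord exists_between)
open scoped Classical

variable {a r β k m u d p P Q : ℕ}

/-- The vertices of the block, universal vertices, and `d` dummy vertices. -/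
abbrev TV (a r β k u P Q d : ℕ) : Type := TVtx a r β k u P Q ⊕ Fin d

/-- Adjacency in the graph of all the optional edges: every optional edge contains a dummy vertex,
and its ends have different colours modulo `c`. -/
def tadj (c : ℕ) : TV a r β k u P Q d → TV a r β k u P Q d → Prop
  | .inr j, .inr j' => (u + j) % c ≠ (u + j') % c
  | .inr j, .inl (.inr (.inr (.inr i))) => (u + j) % c ≠ (i : ℕ) % c
  | .inl (.inr (.inr (.inr i))), .inr j => (i : ℕ) % c ≠ (u + j) % c
  | _, _ => False

/-- The graph of the optional edges. -/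
def THg (a r β k u P Q d c : ℕ) : SimpleGraph (TV a r β k u P Q d) where
  Adj := tadj c
  symm := ⟨by
    rintro ((x | x | x | x) | x) ((y | y | y | y) | y) h <;>
      first | exact h | exact Ne.symm h⟩
  loopless := ⟨by
    rintro ((x | x | x | x) | x) h
    · exact h
    · exact h
    · exact h
    · exact h
    · exact h rfl⟩

/-- The embedding of the structured vertices. -/
def tinl (a r β k u P Q d : ℕ) : TVtx a r β k u P Q ↪ TV a r β k u P Q d := ⟨Sum.inl, Sum.inl_injective⟩

variable (S : G.Row a (r * β) → Fin k → Fin m)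
variable (E : Fin p × Fin p ≃ Fin P × Fin Q)

/-- The graph with block variables `Z` and optional edges `D`. -/
def WW (Z : Finset (GGround a (r * β) p)) (D : SimpleGraph (TV a r β k u P Q d)) :
    SimpleGraph (TV a r β k u P Q d) :=
  (tgraph (u := u) S E Z).map (tinl a r β k u P Q d) ⊔ D

theorem gr_mono {Z Z' : Finset (GGround a (r * β) p)} (hZ : Z ⊆ Z') :
    tgraph (u := u) S E Z ≤ tgraph S E Z' := by
  intro x y h
  rw [tgraph_adj] at h ⊢
  cases hE : tedge S E x y with
  | inl q => rw [hE] at h; exact hZ h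
  | inr c => rw [hE] at h; exact h

theorem WW_mono {Z Z' : Finset (GGround a (r * β) p)} {D D' : SimpleGraph (TV a r β k u P Q d)}
    (hz : Z ⊆ Z') (hD : D ≤ D') : WW S E Z D ≤ WW S E Z' D' :=
  sup_le_sup (SimpleGraph.map_monotone _ (gr_mono S E hz)) hD

theorem Hg_inl {c : ℕ} (x y : TVtx a r β k u P Q) :
    ¬ (THg a r β k u P Q d c).Adj (Sum.inl x) (Sum.inl y) := by
  intro h
  change tadj c _ _ at h
  rcases x with x | x | x | x <;> rcases y with y | y | y | y <;> exact h

theorem WW_inl {c : ℕ} {Z : Finset (GGround a (r * β) p)} {D : SimpleGraph (TV a r β k u P Q d)}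
    (hD : D ≤ THg a r β k u P Q d c) (x y : TVtx a r β k u P Q) :
    (WW S E Z D).Adj (Sum.inl x) (Sum.inl y) ↔ (tgraph (u := u) S E Z).Adj x y := by
  constructor
  · rintro (h | h)
    · exact (SimpleGraph.map_adj_apply (f := tinl a r β k u P Q d) (a := x) (b := y)).1 h
    · exact (Hg_inl x y (hD h)).elim
  · intro h
    left
    exact (SimpleGraph.map_adj_apply (f := tinl a r β k u P Q d) (a := x) (b := y)).2 h

theorem WW_inr {Z : Finset (GGround a (r * β) p)} {D : SimpleGraph (TV a r β k u P Q d)}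
    (x : TV a r β k u P Q d) (j : Fin d) : (WW S E Z D).Adj x (Sum.inr j) ↔ D.Adj x (Sum.inr j) := by
  constructor
  · rintro (h | h)
    · rw [SimpleGraph.map_adj] at h
      obtain ⟨u', v', _, _, h⟩ := h
      exact (Sum.inl_ne_inr h).elim
    · exact h
  · exact fun h => Or.inr h

/-- The colour of a universal vertex or a dummy vertex. -/
def col : TV a r β k u P Q d → ℕ
  | .inr j => u + j
  | .inl (.inr (.inr (.inr i))) => i
  | _ => 0

theorem clique_card_le {Z : Finset (GGround a (r * β) p)} (T : Finset (TVtx a r β k u P Q))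
    (hT : (tgraph (u := u) S E Z).IsClique (T : Set (TVtx a r β k u P Q))) :
    T.card ≤ Fintype.card (TGrp a r u) := by
  have hinj : Set.InjOn tgrp (T : Set (TVtx a r β k u P Q)) := by
    intro x hx y hy hxy
    by_contra hne
    exact (tbase_of_adj S E (hT hx hy hne)).1 hxy
  rw [← Finset.card_image_of_injOn hinj]
  exact Finset.card_le_univ _

theorem WW_clique {c : ℕ} (ha : 0 < a)
    (hc : c + 1 = Fintype.card (TGrp a r u)) {Z : Finset (GGround a (r * β) p)}
    {D : SimpleGraph (TV a r β k u P Q d)} (hD : D ≤ THg a r β k u P Q d c) :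
    (∃ X : Finset (TV a r β k u P Q d), (WW S E Z D).IsClique (X : Set (TV a r β k u P Q d)) ∧
      Fintype.card (TGrp a r u) ≤ X.card) ↔ HasWord S Z := by
  have hcardG : Fintype.card (TGrp a r u) = a + (1 + (a * (2 * r) + u)) := by
    simp only [TGrp, Fintype.card_sum, Fintype.card_prod, Fintype.card_fin, Fintype.card_bool,
      Fintype.card_unit]
  have huc : u < c := by omega
  constructor
  · rintro ⟨X, hX, hcard⟩
    by_cases hj : ∃ j, Sum.inr j ∈ X
    · exfalso
      obtain ⟨j, hj⟩ := hj
      have hadj : ∀ x ∈ X, ∀ y ∈ X, x ≠ y → (WW S E Z D).Adj x y := fun x hx y hy hxy => hX hx hy hxy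
      have hcol : ∀ x ∈ X, (∃ i, x = Sum.inr i) ∨ (∃ i, x = Sum.inl (Sum.inr (Sum.inr (Sum.inr i)))) := by
        intro x hx
        by_cases hxj : x = Sum.inr j
        · exact Or.inl ⟨j, hxj⟩
        have h1 := hD ((WW_inr S E _ _).1 (hadj x hx _ hj hxj))
        change tadj c _ _ at h1
        rcases x with (x | x | x | x) | x
        · exact h1.elim
        · exact h1.elim
        · exact h1.elim
        · exact Or.inr ⟨x, rfl⟩
        · exact Or.inl ⟨x, rfl⟩
      have hinj : Set.InjOn (fun x : TV a r β k u P Q d => col x % c) X := by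
        intro x hx y hy hxy
        by_contra hne
        have h1 := hadj x hx y hy hne
        rcases hcol x hx with ⟨i, rfl⟩ | ⟨i, rfl⟩ <;> rcases hcol y hy with ⟨i', rfl⟩ | ⟨i', rfl⟩
        · exact (hD ((WW_inr S E _ _).1 h1) : tadj c _ _) hxy
        · exact (hD ((WW_inr S E _ _).1 h1.symm) : tadj c _ _) hxy.symm
        · exact (hD ((WW_inr S E _ _).1 h1) : tadj c _ _) hxy
        · apply hne
          have hxy' : (i : ℕ) % c = (i' : ℕ) % c := hxy
          have hi := i.2
          have hi' := i'.2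
          rw [Nat.mod_eq_of_lt (by omega), Nat.mod_eq_of_lt (by omega)] at hxy'
          rw [Fin.ext hxy']
      have := card_le_card_of_injOn (s := X) (t := Finset.range c)
        (fun x : TV a r β k u P Q d => col x % c)
        (fun x _ => by
          rw [coe_range, Set.mem_Iio]
          exact Nat.mod_lt _ (by omega)) hinj
      rw [card_range] at this
      omega
    · push Not at hj
      have hXl : (tgraph (u := u) S E Z).IsClique (X.toLeft : Set (TVtx a r β k u P Q)) := by
        intro x hx y hy hxy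
        rw [mem_coe, mem_toLeft] at hx hy
        exact (WW_inl S E hD x y).1 (hX hx hy fun h => hxy (Sum.inl_injective h))
      have hcardl : X.toLeft.card = X.card := by
        have h1 := card_toLeft_add_card_toRight (u := X)
        have h2 : X.toRight = ∅ := by
          apply eq_empty_of_forall_notMem
          intro j hj'
          rw [mem_toRight] at hj'
          exact hj j hj'
        rw [h2, card_empty] at h1
        omega
      have hle := clique_card_le S E _ hXl
      rw [← tclique_iff (u := u) S E ha Z]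
      refine ⟨X.toLeft, ?_⟩
      rw [SimpleGraph.isNClique_iff]
      exact ⟨hXl, by omega⟩
  · intro hz
    obtain ⟨T, hT⟩ := (tclique_iff (u := u) S E ha Z).2 hz
    rw [SimpleGraph.isNClique_iff] at hT
    refine ⟨T.map (tinl a r β k u P Q d), ?_, by rw [card_map, hT.2]⟩
    rw [coe_map]
    exact (hT.1.map (f := tinl a r β k u P Q d)).mono le_sup_left

/-! ### Numbers of edges -/

theorem ncard_map_inl (H : SimpleGraph (TVtx a r β k u P Q)) :
    (H.map (tinl a r β k u P Q d)).edgeSet.ncard = H.edgeSet.ncard := by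
  rw [SimpleGraph.edgeSet_map, Set.ncard_image_of_injective _ (Function.Embedding.injective _)]

theorem WW_ncard_le (Z : Finset (GGround a (r * β) p)) (D : SimpleGraph (TV a r β k u P Q d)) :
    (WW S E Z D).edgeSet.ncard ≤ (tgraph (u := u) S E Z).edgeSet.ncard + D.edgeSet.ncard := by
  rw [WW, SimpleGraph.edgeSet_sup]
  refine (Set.ncard_union_le _ _).trans ?_
  rw [ncard_map_inl]

theorem WW_ncard {c : ℕ} (Z : Finset (GGround a (r * β) p)) {D : SimpleGraph (TV a r β k u P Q d)}
    (hD : D ≤ THg a r β k u P Q d c) :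
    (WW S E Z D).edgeSet.ncard = (tgraph (u := u) S E Z).edgeSet.ncard + D.edgeSet.ncard := by
  rw [WW, SimpleGraph.edgeSet_sup, Set.ncard_union_eq ?_ (Set.toFinite _)
    (Set.toFinite _), ncard_map_inl]
  rw [Set.disjoint_left]
  intro e h1 h2
  rw [SimpleGraph.edgeSet_map] at h1
  obtain ⟨e', -, rfl⟩ := h1
  induction e' using Sym2.ind with
  | _ x y =>
  exact Hg_inl x y (hD (show D.Adj (Sum.inl x) (Sum.inl y) from h2))

/-- The main vertex of the edge of a block variable. -/
def v1 (q : GGround a (r * β) p) : TVtx a r β k u P Q := Sum.inl (q.2.1, ((E q.1).1, q.2.2))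

/-- The star vertex of the edge of a block variable. -/
def v2 (q : GGround a (r * β) p) : TVtx a r β k u P Q := Sum.inr (Sum.inl (E q.1).2)

/-- The edge of a block variable. -/
def bedge (q : GGround a (r * β) p) : Sym2 (TVtx a r β k u P Q) := s(v1 E q, v2 E q)

theorem bedge_inj : Function.Injective (bedge (a := a) (r := r) (β := β) (k := k) (u := u) E) := by
  rintro ⟨e, ⟨i, y⟩⟩ ⟨e', ⟨i', y'⟩⟩ h
  simp only [bedge, v1, v2, Sym2.eq_iff, Sum.inl.injEq, Sum.inr.injEq, Prod.mk.injEq, reduceCtorEq,
    and_false, or_false] at h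
  obtain ⟨⟨rfl, h1, rfl⟩, h2⟩ := h
  have : e = e' := E.injective (Prod.ext h1 h2)
  rw [this]

/-- A variable is live if some message selects its edge. -/
def Live (q : GGround a (r * β) p) : Prop := TBase S (v1 (u := 0) E q) (v2 E q)

theorem tlabel_inl {x y : TVtx a r β k u P Q} {q : GGround a (r * β) p}
    (h : tlabel E x y = Sum.inl q) :
    (x = v1 E q ∧ y = v2 E q) ∨ (x = v2 E q ∧ y = v1 E q) := by
  rcases x with ⟨i, w, z⟩ | x | x | x <;> rcases y with ⟨i', w', z'⟩ | y | y | y
  · simp [tlabel] at h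
  · simp only [tlabel, Sum.inl.injEq] at h
    subst h
    left
    simp [v1, v2]
  · simp [tlabel] at h
  · simp [tlabel] at h
  · simp only [tlabel, Sum.inl.injEq] at h
    subst h
    right
    simp [v1, v2]
  all_goals simp [tlabel] at h

theorem tlabel_v (q : GGround a (r * β) p) :
    tlabel E (v1 E q : TVtx a r β k u P Q) (v2 E q) = Sum.inl q := by
  obtain ⟨e, ⟨i, y⟩⟩ := q
  simp [v1, v2, tlabel]

theorem base_live {q : GGround a (r * β) p}
    (h : TBase S (v1 E q : TVtx a r β k u P Q) (v2 E q)) : Live S E q := by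
  obtain ⟨-, s, σ, v, h1, h2⟩ := h
  refine ⟨by simp [tgrp, v1, v2], s, σ, v, ?_, ?_⟩
  · simp only [tgrp, v1, tvert, Sum.inl.injEq] at h1 ⊢
    exact h1
  · simp only [tgrp, v2, tvert, Sum.inl.injEq, Sum.inr.injEq] at h2 ⊢
    exact h2

theorem live_base {q : GGround a (r * β) p} (h : Live S E q) :
    TBase S (v1 E q : TVtx a r β k u P Q) (v2 E q) := by
  obtain ⟨-, s, σ, v, h1, h2⟩ := h
  refine ⟨by simp [tgrp, v1, v2], s, σ, v, ?_, ?_⟩
  · simp only [tgrp, v1, tvert, Sum.inl.injEq] at h1 ⊢
    exact h1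
  · simp only [tgrp, v2, tvert, Sum.inl.injEq, Sum.inr.injEq] at h2 ⊢
    exact h2

theorem live_word (e : Fin p × Fin p) (s : Fin m → ZMod 2) {g : Ground a (r * β)}
    (hg : g ∈ wordSet (G.sparseCode S) s) : Live S E (e, g) := by
  rw [mem_wordSet] at hg
  refine ⟨by simp [tgrp, v1, v2], s, (E e).1, (E e).2, ?_, ?_⟩
  · simp [tgrp, v1, tvert, hg]
  · simp [tgrp, v2, tvert]

theorem gr_edges (Z : Finset (GGround a (r * β) p)) :
    (tgraph (u := u) S E Z).edgeSet =
      (tgraph (u := u) S E (∅ : Finset (GGround a (r * β) p))).edgeSet ∪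
        bedge E '' ((Z.filter (Live S E) : Finset (GGround a (r * β) p)) : Set (GGround a (r * β) p)) := by
  ext e
  induction e using Sym2.ind with
  | _ x y =>
  constructor
  · intro h
    rw [SimpleGraph.mem_edgeSet] at h
    have hbase := tbase_of_adj S E h
    rw [tgraph_adj] at h
    have he : tedge S E x y = tlabel E x y := by
      unfold tedge
      rw [if_pos hbase]
    rw [he] at h
    cases hE : tlabel E x y with
    | inl q =>
      rw [hE] at h
      right
      refine ⟨q, ?_, ?_⟩
      · rw [mem_coe, mem_filter]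
        refine ⟨h, ?_⟩
        rcases tlabel_inl E hE with ⟨rfl, rfl⟩ | ⟨rfl, rfl⟩
        · exact base_live S E hbase
        · exact base_live S E hbase.symm
      · rcases tlabel_inl E hE with ⟨rfl, rfl⟩ | ⟨rfl, rfl⟩
        · rfl
        · exact Sym2.eq_swap
    | inr c =>
      rw [hE] at h
      left
      rw [SimpleGraph.mem_edgeSet, tgraph_adj, he, hE]
      exact h
  · rintro (h | ⟨q, hq, h⟩)
    · exact SimpleGraph.edgeSet_subset_edgeSet.2 (gr_mono S E (Finset.empty_subset _)) h
    · rw [mem_coe, mem_filter] at hq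
      rw [← h, bedge, SimpleGraph.mem_edgeSet, tgraph_adj]
      unfold tedge
      rw [if_pos (live_base S E hq.2), tlabel_v]
      exact hq.1

theorem gr_ncard (Z : Finset (GGround a (r * β) p)) :
    (tgraph (u := u) S E Z).edgeSet.ncard =
      (tgraph (u := u) S E (∅ : Finset (GGround a (r * β) p))).edgeSet.ncard +
        (Z.filter (Live S E)).card := by
  rw [gr_edges, Set.ncard_union_eq ?_ (Set.toFinite _) (Set.toFinite _),
    Set.ncard_image_of_injective _ (bedge_inj E), Set.ncard_coe_finset]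
  rw [Set.disjoint_left]
  rintro _ h ⟨q, hq, rfl⟩
  rw [mem_coe, mem_filter] at hq
  rw [bedge, SimpleGraph.mem_edgeSet, tgraph_adj] at h
  unfold tedge at h
  rw [if_pos (live_base S E hq.2), tlabel_v] at h
  simp at h

/-! ### Turan graphs -/

/-- The embedding of the Turan graph. -/
def tur (i : Fin (u + d)) : TV a r β k u P Q d :=
  Sum.elim (fun x => Sum.inl (Sum.inr (Sum.inr (Sum.inr x)))) Sum.inr (finSumFinEquiv.symm i)

theorem tur_inj : Function.Injective (tur (a := a) (r := r) (β := β) (k := k) (u := u) (d := d) (P := P) (Q := Q)) := by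
  intro i j h
  obtain ⟨i, rfl⟩ := finSumFinEquiv.surjective i
  obtain ⟨j, rfl⟩ := finSumFinEquiv.surjective j
  unfold tur at h
  rw [Equiv.symm_apply_apply, Equiv.symm_apply_apply] at h
  rcases i with i | i <;> rcases j with j | j
  · simp only [Sum.elim_inl, Sum.inl.injEq, Sum.inr.injEq] at h
    rw [h]
  · simp at h
  · simp at h
  · simp only [Sum.elim_inr, Sum.inr.injEq] at h
    rw [h]

theorem univ_adj (hP : Fin P) (hQ : Fin Q) (Z : Finset (GGround a (r * β) p)) (i j : Fin u) (h : i ≠ j) :
    (tgraph (u := u) S E Z).Adj (.inr (.inr (.inr i))) (.inr (.inr (.inr j))) := by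
  have hbase : TBase S (.inr (.inr (.inr i)) : TVtx a r β k u P Q) (.inr (.inr (.inr j))) := by
    refine ⟨?_, 0, hP, hQ, rfl, rfl⟩
    simpa [tgrp] using h
  rw [tgraph_adj]
  unfold tedge
  rw [if_pos hbase]
  rfl

theorem tur_adj (hP : Fin P) (hQ : Fin Q) {c : ℕ} (Z : Finset (GGround a (r * β) p)) (i j : Fin (u + d))
    (h : (SimpleGraph.turanGraph (u + d) c).Adj i j) :
    (WW S E Z (THg a r β k u P Q d c)).Adj (tur i) (tur j) := by
  rw [SimpleGraph.turanGraph_adj] at h
  obtain ⟨i, rfl⟩ := finSumFinEquiv.surjective i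
  obtain ⟨j, rfl⟩ := finSumFinEquiv.surjective j
  unfold tur
  rw [Equiv.symm_apply_apply, Equiv.symm_apply_apply]
  rcases i with i | i <;> rcases j with j | j
  · rw [finSumFinEquiv_apply_left, finSumFinEquiv_apply_left, Fin.val_castAdd,
      Fin.val_castAdd] at h
    refine (WW_inl S E le_rfl _ _).2 ?_
    apply univ_adj S E hP hQ
    rintro rfl
    exact h rfl
  · rw [finSumFinEquiv_apply_left, finSumFinEquiv_apply_right, Fin.val_castAdd,
      Fin.val_natAdd] at h
    exact (WW_inr S E _ _).2 h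
  · rw [finSumFinEquiv_apply_left, finSumFinEquiv_apply_right, Fin.val_castAdd,
      Fin.val_natAdd] at h
    exact ((WW_inr S E _ _).2 h.symm).symm
  · rw [finSumFinEquiv_apply_right, finSumFinEquiv_apply_right, Fin.val_natAdd,
      Fin.val_natAdd] at h
    exact (WW_inr S E _ _).2 h

theorem tur_ncard (hP : Fin P) (hQ : Fin Q) (c : ℕ) (Z : Finset (GGround a (r * β) p)) :
    (SimpleGraph.turanGraph (u + d) c).edgeSet.ncard ≤
      (WW S E Z (THg a r β k u P Q d c)).edgeSet.ncard := by
  rw [← Set.ncard_image_of_injective (f := Sym2.map (tur (a := a) (r := r) (β := β) (k := k) (P := P) (Q := Q)))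
    (SimpleGraph.turanGraph (u + d) c).edgeSet (Sym2.map.injective tur_inj)]
  apply Set.ncard_le_ncard _ (Set.toFinite _)
  rintro _ ⟨e, he, rfl⟩
  induction e using Sym2.ind with
  | _ x y => exact tur_adj S E hP hQ Z x y he

/-- There are enough optional edges. -/
theorem full_ncard (hP : Fin P) (hQ : Fin Q) {n K w : ℕ} (hK : 2 ≤ K) (hn : u + d + w = n) (Z : Finset (GGround a (r * β) p)) :
    SimpleGraph.extremalNumber n (⊤ : SimpleGraph (Fin K)) ≤
      (WW S E Z (THg a r β k u P Q d (K - 1))).edgeSet.ncard + w * n := by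
  subst hn
  rw [Pool.Agent.T9h36.extremal_eq _ K hK]
  exact (Pool.Agent.T9h36.turan_step _ _ _).trans (Nat.add_le_add_right (tur_ncard S E hP hQ (K - 1) Z) _)

/-- The structured part has few edges. -/
theorem gr_ncard_choose (Z : Finset (GGround a (r * β) p)) :
    (tgraph (u := u) S E Z).edgeSet.ncard ≤ (Fintype.card (TVtx a r β k u P Q)).choose 2 := by
  rw [Pool.Agent.T9h36.ncard_edgeSet_eq]
  exact SimpleGraph.card_edgeFinset_le_card_choose_two

/-! ### Transfer to labelled graphs -/

/-- The padded graph on `Fin n`. -/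
def Γ {n : ℕ} (ι : TV a r β k u P Q d ≃ Fin n) (Z : Finset (GGround a (r * β) p))
    (D : SimpleGraph (TV a r β k u P Q d)) : SimpleGraph (Fin n) := (WW S E Z D).comap ι.symm

theorem Γ_mono {n : ℕ} (ι : TV a r β k u P Q d ≃ Fin n) {Z Z' : Finset (GGround a (r * β) p)}
    {D D' : SimpleGraph (TV a r β k u P Q d)} (hz : Z ⊆ Z') (hD : D ≤ D') : Γ S E ι Z D ≤ Γ S E ι Z' D' :=
  fun _ _ h => WW_mono S E hz hD h

theorem Γ_ncard {n : ℕ} (ι : TV a r β k u P Q d ≃ Fin n) (Z : Finset (GGround a (r * β) p))
    (D : SimpleGraph (TV a r β k u P Q d)) :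
    (Γ S E ι Z D).edgeSet.ncard = (WW S E Z D).edgeSet.ncard := by
  rw [← Nat.card_coe_set_eq, ← Nat.card_coe_set_eq]
  exact Nat.card_congr (SimpleGraph.Iso.comap ι.symm (WW S E Z D)).mapEdgeSet

theorem Γ_clique {n c : ℕ} (ha : 0 < a)
    (hc : c + 1 = Fintype.card (TGrp a r u))
    (ι : TV a r β k u P Q d ≃ Fin n) {Z : Finset (GGround a (r * β) p)}
    {D : SimpleGraph (TV a r β k u P Q d)} (hD : D ≤ THg a r β k u P Q d c) :
    (∃ X : Finset (Fin n), (Γ S E ι Z D).IsClique (X : Set (Fin n)) ∧
      Fintype.card (TGrp a r u) ≤ X.card) ↔ HasWord S Z := by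
  rw [← WW_clique S E ha hc hD]
  constructor
  · rintro ⟨X, hX, hcard⟩
    refine ⟨X.map ι.symm.toEmbedding, ?_, by rw [card_map]; exact hcard⟩
    intro x hx y hy hxy
    rw [mem_coe, mem_map] at hx hy
    obtain ⟨x, hx, rfl⟩ := hx
    obtain ⟨y, hy, rfl⟩ := hy
    exact hX hx hy fun h => hxy (by rw [h])
  · rintro ⟨X, hX, hcard⟩
    refine ⟨X.map ι.toEmbedding, ?_, by rw [card_map]; exact hcard⟩
    intro x hx y hy hxy
    rw [mem_coe, mem_map] at hx hy
    obtain ⟨x, hx, rfl⟩ := hx
    obtain ⟨y, hy, rfl⟩ := hy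
    change (WW S E Z D).Adj (ι.symm (ι x)) (ι.symm (ι y))
    rw [Equiv.symm_apply_apply, Equiv.symm_apply_apply]
    exact hX hx hy fun h => hxy (by rw [h])

/-- Every adjacency is a block variable or constant. -/
noncomputable def projW {n : ℕ} (ι : TV a r β k u P Q d ≃ Fin n) (D : SimpleGraph (TV a r β k u P Q d)) :
    Fin n × Fin n → GGround a (r * β) p ⊕ Bool := fun q =>
  match ι.symm q.1, ι.symm q.2 with
  | .inl x, .inl y => tedge S E x y
  | x, y => .inr (decide (D.Adj x y))

theorem pull_projW {n c : ℕ} (ι : TV a r β k u P Q d ≃ Fin n) {D : SimpleGraph (TV a r β k u P Q d)}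
    (hD : D ≤ THg a r β k u P Q d c) (Z : Finset (GGround a (r * β) p)) :
    pull (projW S E ι D) (chi Z) = graphInput (Γ S E ι Z D) := by
  funext q
  obtain ⟨p1, p2⟩ := q
  unfold pull projW graphInput
  rw [Bool.eq_iff_iff, decide_eq_true_eq]
  change _ ↔ (WW S E Z D).Adj (ι.symm p1) (ι.symm p2)
  simp only
  rcases h1 : ι.symm p1 with x | i
  · rcases h2 : ι.symm p2 with y | j
    · rw [WW_inl S E hD, tgraph_adj]
      simp only
      cases hE : tedge S E x y with
      | inl q => simp [chi]
      | inr c => simp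
    · rw [WW_inr S E]
      simp
  · rcases h2 : ι.symm p2 with y | j
    · rw [SimpleGraph.adj_comm, WW_inr S E, SimpleGraph.adj_comm]
      simp
    · rw [WW_inr S E]
      simp

end Pool.Agent.T9h35.SG
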